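import Mathlib

/-!
# Simple polytopes and Buchstaber invariants
-/

set_option autoImplicit false

namespace Pool.Agent.Lib_helper98.Buch

/-- A simple polytope of dimension `n` with `m` facets, given by its facet inequalities
`⟨a i, x⟩ ≤ b i` in `ℝⁿ`: the solution set is bounded, has an interior point, each inequality
defines a facet (it can be tight alone), and no point lies on more than `n` facets. -/
structure SimplePolytope (n m : ℕ) where
  /-- the outer normals of the facets -/
  a : Fin m → Fin n → ℝ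
  /-- the right hand sides -/
  b : Fin m → ℝ
  bounded : Bornology.IsBounded {x : Fin n → ℝ | ∀ i, ∑ j, a i j * x j ≤ b i}
  interior : ∃ x : Fin n → ℝ, ∀ i, ∑ j, a i j * x j < b i
  facet : ∀ i, ∃ x : Fin n → ℝ, ∑ j, a i j * x j = b i ∧ ∀ l, l ≠ i → ∑ j, a l j * x j < b l
  simple : ∀ x : Fin n → ℝ, (∀ i, ∑ j, a i j * x j ≤ b i) →
    ∀ σ : Finset (Fin m), (∀ i ∈ σ, ∑ j, a i j * x j = b i) → σ.card ≤ n

/-- The simplicial complex `K_P` of a simple polytope `P`: the sets of facets of `P` with a common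
point (this is the boundary complex of the polar simplicial polytope). -/
def SimplePolytope.complex {n m : ℕ} (P : SimplePolytope n m) : Set (Finset (Fin m)) :=
  {σ | ∃ x : Fin n → ℝ, (∀ i, ∑ j, P.a i j * x j ≤ P.b i) ∧
    ∀ i ∈ σ, ∑ j, P.a i j * x j = P.b i}

variable {m : ℕ}

/-- The moment-angle complex `Z_K ⊆ ℂ^m`: the union over `σ ∈ K` of
`(D²)^σ × (S¹)^([m] ∖ σ)`. -/
def momentAngle (K : Set (Finset (Fin m))) : Set (Fin m → ℂ) :=
  {z | ∃ σ ∈ K, (∀ i ∈ σ, ‖z i‖ ≤ 1) ∧ ∀ i ∉ σ, ‖z i‖ = 1}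

/-- The real moment-angle complex `ℝZ_K ⊆ ℝ^m`: the union over `σ ∈ K` of
`[-1, 1]^σ × {±1}^([m] ∖ σ)`. -/
def realMomentAngle (K : Set (Finset (Fin m))) : Set (Fin m → ℝ) :=
  {x | ∃ σ ∈ K, (∀ i ∈ σ, |x i| ≤ 1) ∧ ∀ i ∉ σ, x i = 1 ∨ x i = -1}

/-- The subgroup `H` of the torus `T^m` acts freely (by coordinatewise multiplication) on the
moment-angle complex. -/
def ActsFreely (K : Set (Finset (Fin m))) (H : Subgroup (Fin m → Circle)) : Prop :=
  ∀ h ∈ H, ∀ z ∈ momentAngle K, (fun i => (h i : ℂ) * z i) = z → h = 1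

/-- The subgroup `H` of `{±1}^m ≅ ℤ₂^m` acts freely (by coordinatewise multiplication) on the
real moment-angle complex. -/
def RealActsFreely (K : Set (Finset (Fin m))) (H : Subgroup (Fin m → ℤˣ)) : Prop :=
  ∀ h ∈ H, ∀ x ∈ realMomentAngle K, (fun i => (((h i : ℤˣ) : ℤ) : ℝ) * x i) = x → h = 1

/-- The Buchstaber invariant `s(K)`: the largest `r` such that some toric subgroup of dimension
`r` (a subgroup isomorphic to the torus `T^r` as a topological group) of `T^m` acts freely on
the moment-angle complex. -/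
noncomputable def buchstaber (K : Set (Finset (Fin m))) : ℕ :=
  sSup {r | ∃ H : Subgroup (Fin m → Circle), Nonempty (H ≃ₜ* (Fin r → Circle)) ∧ ActsFreely K H}

/-- The real Buchstaber invariant `s_ℝ(K)`: the largest rank `r` (so that the subgroup has `2^r`
elements) of a subgroup of `ℤ₂^m` acting freely on the real moment-angle complex. -/
noncomputable def realBuchstaber (K : Set (Finset (Fin m))) : ℕ :=
  sSup {r | ∃ H : Subgroup (Fin m → ℤˣ), Nat.card H = 2 ^ r ∧ RealActsFreely K H}

end Pool.Agent.Lib_helper98.Buch
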