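import Mathlib
import Pool.Agent.Lib_helper98.Buch.Defs
import Pool.Agent.Lib_helper98.Betti.Check
import Pool.Agent.Lib_helper98.Betti.TableA
import Pool.Agent.Lib_helper98.Betti.TableB

set_option autoImplicit false

namespace Pool.Agent.Lib_helper98.Buch

open Pool.Agent.Lib_helper98.Betti

variable {m : ℕ}

/-! ### Real case -/

theorem real_trivial {K : Set (Finset (Fin m))} {H : Subgroup (Fin m → ℤˣ)}
    (h : RealActsFreely K H) {u : Fin m → ℤˣ} (hu : u ∈ H) {σ : Finset (Fin m)} (hσ : σ ∈ K)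
    (hs : ∀ i ∉ σ, u i = 1) : u = 1 := by
  refine h u hu (fun i => if i ∈ σ then 0 else 1) ⟨σ, hσ, ?_, ?_⟩ ?_
  · intro i hi
    simp [hi]
  · intro i hi
    simp [hi]
  · funext i
    by_cases hi : i ∈ σ
    · simp [hi]
    · simp [hi, hs i hi]

theorem real_free_of_trivial {K : Set (Finset (Fin m))} {H : Subgroup (Fin m → ℤˣ)}
    (h : ∀ u ∈ H, ∀ σ ∈ K, (∀ i ∉ σ, u i = 1) → u = 1) : RealActsFreely K H := by
  rintro u hu x ⟨σ, hσ, _, hx⟩ hfix
  refine h u hu σ hσ fun i hi => ?_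
  have h1 : (((u i : ℤˣ) : ℤ) : ℝ) * x i = x i := congrFun hfix i
  rcases Int.units_eq_one_or (u i) with h2 | h2
  · exact h2
  · exfalso
    rw [h2] at h1
    rcases hx i hi with h3 | h3 <;> rw [h3] at h1 <;> norm_num at h1

theorem complex_free_of_trivial {K : Set (Finset (Fin m))} {H : Subgroup (Fin m → Circle)}
    (h : ∀ u ∈ H, ∀ σ ∈ K, (∀ i ∉ σ, u i = 1) → u = 1) : ActsFreely K H := by
  rintro u hu z ⟨σ, hσ, _, hz⟩ hfix
  refine h u hu σ hσ fun i hi => ?_
  have h1 : (u i : ℂ) * z i = z i := congrFun hfix i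
  have h2 : z i ≠ 0 := by
    intro h0
    have := hz i hi
    rw [h0, norm_zero] at this
    exact zero_ne_one this
  have h3 : (u i : ℂ) = 1 := by
    have : (u i : ℂ) * z i = 1 * z i := by rw [h1, one_mul]
    exact mul_right_cancel₀ h2 this
  exact Circle.ext (by rw [h3]; rfl)

/-- The homomorphism `{±1} → S¹`. -/
noncomputable def sg : ℤˣ →* Circle where
  toFun u := if u = 1 then 1 else Circle.exp Real.pi
  map_one' := by simp
  map_mul' := by
    intro u v
    have h : Circle.exp Real.pi * Circle.exp Real.pi = 1 := by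
      rw [← Circle.exp_add]
      have : Real.pi + Real.pi = 2 * Real.pi := by ring
      rw [this, Circle.exp_two_pi]
    rcases Int.units_eq_one_or u with rfl | rfl <;> rcases Int.units_eq_one_or v with rfl | rfl <;>
      simp [h]

theorem exp_pi_coe : ((Circle.exp Real.pi : Circle) : ℂ) = -1 := by
  rw [Circle.coe_exp, Complex.exp_pi_mul_I]

theorem sg_coe (u : ℤˣ) : ((sg u : Circle) : ℂ) = (((u : ℤ) : ℝ) : ℂ) := by
  rcases Int.units_eq_one_or u with rfl | rfl
  · simp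
  · have : sg (-1) = Circle.exp Real.pi := by
      change (if (-1 : ℤˣ) = 1 then (1 : Circle) else Circle.exp Real.pi) = _
      rw [if_neg (by decide)]
    rw [this, exp_pi_coe]
    simp

theorem sg_inj : Function.Injective sg := by
  intro u v h
  have h1 := congrArg (fun z : Circle => (z : ℂ)) h
  simp only [sg_coe] at h1
  have h2 : ((u : ℤ) : ℝ) = ((v : ℤ) : ℝ) := by exact_mod_cast h1
  have h3 : (u : ℤ) = (v : ℤ) := by exact_mod_cast h2
  exact Units.ext h3

theorem sq_eq_one_iff_of_side_aux {z : ℂ} (h : z ^ 2 = 1) : z = 1 ∨ z = -1 := by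
  have h1 : (z - 1) * (z + 1) = 0 := by linear_combination h
  rcases mul_eq_zero.mp h1 with h2 | h2
  · exact Or.inl (by linear_combination h2)
  · exact Or.inr (by linear_combination h2)

theorem exists_sg {z : Circle} (hz : z ^ 2 = 1) : ∃ u, sg u = z := by
  have h1 : (z : ℂ) ^ 2 = 1 := by
    have := congrArg (fun z : Circle => (z : ℂ)) hz
    simpa using this
  rcases sq_eq_one_iff_of_side_aux h1 with h | h
  · exact ⟨1, Circle.ext (by rw [sg_coe, h]; simp)⟩
  · exact ⟨-1, Circle.ext (by rw [sg_coe, h]; simp)⟩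

/-- Coordinatewise version. -/
noncomputable def sgm (m : ℕ) : (Fin m → ℤˣ) →* (Fin m → Circle) where
  toFun u := fun i => sg (u i)
  map_one' := by funext i; simp
  map_mul' u v := by funext i; simp

theorem sgm_inj (m : ℕ) : Function.Injective (sgm m) := by
  intro u v h
  funext i
  exact sg_inj (congrFun h i)

/-- A toric subgroup acting freely gives a real one acting freely. -/
theorem real_of_complex {K : Set (Finset (Fin m))} {H : Subgroup (Fin m → Circle)} {r : ℕ}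
    (e : H ≃ₜ* (Fin r → Circle)) (h : ActsFreely K H) :
    ∃ H' : Subgroup (Fin m → ℤˣ), 2 ^ r ≤ Nat.card H' ∧ RealActsFreely K H' := by
  classical
  refine ⟨H.comap (sgm m), ?_, ?_⟩
  · have key : ∀ u : Fin r → ℤˣ, ∃ v : Fin m → ℤˣ, sgm m v = ((e.symm (sgm r u) : H) : Fin m → Circle) := by
      intro u
      have h1 : ((e.symm (sgm r u) : H) : Fin m → Circle) ^ 2 = 1 := by
        have h2 : (sgm r u) ^ 2 = 1 := by
          rw [← map_pow]
          have : u ^ 2 = 1 := by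
            funext i
            rw [Pi.pow_apply, Pi.one_apply, Int.units_sq]
          rw [this, map_one]
        have h3 : (e.symm (sgm r u)) ^ 2 = 1 := by
          rw [← map_pow, h2, map_one]
        have h4 := congrArg (fun x : H => (x : Fin m → Circle)) h3
        simpa using h4
      have h5 : ∀ i, ∃ v : ℤˣ, sg v = ((e.symm (sgm r u) : H) : Fin m → Circle) i := by
        intro i
        exact exists_sg (congrFun h1 i)
      choose v hv using h5
      exact ⟨v, funext hv⟩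
    choose f hf using key
    have hfmem : ∀ u, f u ∈ H.comap (sgm m) := by
      intro u
      rw [Subgroup.mem_comap, hf u]
      exact (e.symm (sgm r u)).2
    have hinj : Function.Injective (fun u => (⟨f u, hfmem u⟩ : H.comap (sgm m))) := by
      intro u v huv
      have h1 : f u = f v := congrArg Subtype.val huv
      have h2 : ((e.symm (sgm r u) : H) : Fin m → Circle) = ((e.symm (sgm r v) : H) : Fin m → Circle) := by
        rw [← hf u, ← hf v, h1]
      have h3 : e.symm (sgm r u) = e.symm (sgm r v) := Subtype.ext h2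
      exact sgm_inj r (e.symm.injective h3)
    have h1 := Nat.card_le_card_of_injective _ hinj
    have h2 : Nat.card (Fin r → ℤˣ) = 2 ^ r := by
      rw [Nat.card_eq_fintype_card, Fintype.card_fun, Fintype.card_units_int, Fintype.card_fin]
    rwa [h2] at h1
  · rintro u hu x ⟨σ, hσ, h1, h2⟩ hfix
    have h3 : sgm m u = 1 := by
      refine h (sgm m u) hu (fun i => (x i : ℂ)) ⟨σ, hσ, ?_, ?_⟩ ?_
      · intro i hi
        simpa using h1 i hi
      · intro i hi
        rcases h2 i hi with h | h <;> simp [h]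
      · funext i
        have h4 : (((u i : ℤˣ) : ℤ) : ℝ) * x i = x i := congrFun hfix i
        change ((sg (u i) : Circle) : ℂ) * (x i : ℂ) = (x i : ℂ)
        rw [sg_coe, ← Complex.ofReal_mul, h4]
    exact sgm_inj m (by rw [h3, map_one])

/-! ### The torus of an integer matrix -/

/-- The homomorphism `G^n → G^m` of an integer matrix. -/
def tor {G : Type*} [CommGroup G] {m n : ℕ} (S : Fin m → Fin n → ℤ) : (Fin n → G) →* (Fin m → G) where
  toFun t := fun i => ∏ j, t j ^ S i j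
  map_one' := by
    funext i
    simp
  map_mul' t t' := by
    funext i
    simp [mul_zpow, Finset.prod_mul_distrib]

theorem prod_zpow_sum {G ι : Type*} [CommGroup G] [Fintype ι] (g : G) (f : ι → ℤ) :
    ∏ i, g ^ f i = g ^ ∑ i, f i := by
  classical
  have : ∀ s : Finset ι, ∏ i ∈ s, g ^ f i = g ^ ∑ i ∈ s, f i := by
    intro s
    induction s using Finset.induction_on with
    | empty => simp
    | insert a s ha ih => rw [Finset.prod_insert ha, Finset.sum_insert ha, zpow_add, ih]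
  exact this Finset.univ

theorem tor_trivial {G : Type*} [CommGroup G] {m n : ℕ} (S : Fin m → Fin n → ℤ)
    (M : Fin n → Fin m → ℤ) (hM : ∀ j l, ∑ i, M j i * S i l = if j = l then 1 else 0)
    {σ : Finset (Fin m)} (hσ : ∀ j, ∀ i ∈ σ, M j i = 0) {t : Fin n → G}
    (ht : ∀ i ∉ σ, tor S t i = 1) : t = 1 := by
  funext j
  have h1 : ∏ i, (tor S t i) ^ M j i = t j := by
    have h2 : ∀ i, (tor S t i) ^ M j i = ∏ l, t l ^ (M j i * S i l) := by
      intro i
      change (∏ l, t l ^ S i l) ^ M j i = _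
      rw [← Finset.prod_zpow]
      refine Finset.prod_congr rfl fun l _ => ?_
      rw [← zpow_mul, mul_comm]
    simp only [h2]
    rw [Finset.prod_comm]
    have h3 : ∀ l, ∏ i, t l ^ (M j i * S i l) = if j = l then t l else 1 := by
      intro l
      rw [prod_zpow_sum, hM j l]
      split_ifs
      · exact zpow_one _
      · exact zpow_zero _
    simp only [h3]
    rw [Finset.prod_ite_eq]
    simp
  rw [← h1, Pi.one_apply]
  refine Finset.prod_eq_one fun i _ => ?_
  by_cases hi : i ∈ σ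
  · rw [hσ j i hi, zpow_zero]
  · rw [ht i hi, one_zpow]

/-- An integer matrix with a left inverse off every face gives toric subgroups acting freely. -/
theorem toric_free {n : ℕ} {K : Set (Finset (Fin m))} (S : Fin m → Fin n → ℤ)
    (hS : ∀ σ ∈ K, ∃ M : Fin n → Fin m → ℤ,
      (∀ j l, ∑ i, M j i * S i l = if j = l then 1 else 0) ∧ ∀ j, ∀ i ∈ σ, M j i = 0)
    (hne : K.Nonempty) :
    (∃ H : Subgroup (Fin m → Circle), Nonempty (H ≃ₜ* (Fin n → Circle)) ∧ ActsFreely K H) ∧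
    (∃ H : Subgroup (Fin m → ℤˣ), Nat.card H = 2 ^ n ∧ RealActsFreely K H) := by
  obtain ⟨σ₀, hσ₀⟩ := hne
  have hinj : ∀ {G : Type} [CommGroup G], Function.Injective (tor (G := G) S) := by
    intro G _
    rw [injective_iff_map_eq_one]
    intro t ht
    obtain ⟨M, hM, hM2⟩ := hS σ₀ hσ₀
    exact tor_trivial S M hM hM2 fun i _ => congrFun ht i
  have htriv : ∀ {G : Type} [CommGroup G], ∀ u ∈ (tor (G := G) S).range, ∀ σ ∈ K,
      (∀ i ∉ σ, u i = 1) → u = 1 := by
    rintro G _ u ⟨t, rfl⟩ σ hσ hi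
    obtain ⟨M, hM, hM2⟩ := hS σ hσ
    rw [tor_trivial S M hM hM2 hi, map_one]
  refine ⟨⟨(tor S).range, ⟨?_⟩, complex_free_of_trivial htriv⟩,
    ⟨(tor S).range, ?_, real_free_of_trivial htriv⟩⟩
  · have hc : Continuous (MonoidHom.ofInjective (f := tor (G := Circle) S) hinj) := by
      refine Continuous.subtype_mk ?_ _
      refine continuous_pi fun i => ?_
      change Continuous fun t : Fin n → Circle => ∏ j, t j ^ S i j
      exact continuous_finsetProd _ fun j _ => (continuous_apply j).zpow _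
    exact ContinuousMulEquiv.symm
      { MonoidHom.ofInjective (f := tor (G := Circle) S) hinj with
        continuous_toFun := hc
        continuous_invFun := (Continuous.homeoOfEquivCompactToT2
          (f := (MonoidHom.ofInjective (f := tor (G := Circle) S) hinj).toEquiv) hc).continuous_invFun }
  · rw [Nat.card_congr (MonoidHom.ofInjective (f := tor (G := ℤˣ) S) hinj).toEquiv.symm,
      Nat.card_eq_fintype_card, Fintype.card_fun, Fintype.card_units_int, Fintype.card_fin]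

theorem bdd_real (K : Set (Finset (Fin m))) :
    ∀ r ∈ {r | ∃ H : Subgroup (Fin m → ℤˣ), Nat.card H = 2 ^ r ∧ RealActsFreely K H}, r ≤ m := by
  rintro r ⟨H, hH, _⟩
  have h1 : Nat.card H ≤ Nat.card (Fin m → ℤˣ) :=
    Nat.card_le_card_of_injective (Subtype.val : H → _) Subtype.val_injective
  have h2 : Nat.card (Fin m → ℤˣ) = 2 ^ m := by
    rw [Nat.card_eq_fintype_card, Fintype.card_fun, Fintype.card_units_int, Fintype.card_fin]
  rw [hH, h2] at h1
  exact (Nat.pow_le_pow_iff_right (by norm_num)).mp h1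

theorem bdd_complex (K : Set (Finset (Fin m))) :
    ∀ r ∈ {r | ∃ H : Subgroup (Fin m → Circle), Nonempty (H ≃ₜ* (Fin r → Circle)) ∧
      ActsFreely K H}, r ≤ m := by
  rintro r ⟨H, ⟨e⟩, hH⟩
  obtain ⟨H', h1, _⟩ := real_of_complex e hH
  have h2 : Nat.card H' ≤ Nat.card (Fin m → ℤˣ) :=
    Nat.card_le_card_of_injective (Subtype.val : H' → _) Subtype.val_injective
  have h3 : Nat.card (Fin m → ℤˣ) = 2 ^ m := by
    rw [Nat.card_eq_fintype_card, Fintype.card_fun, Fintype.card_units_int, Fintype.card_fin]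
  rw [h3] at h2
  exact (Nat.pow_le_pow_iff_right (by norm_num)).mp (h1.trans h2)

/-! ### The complex `KA` -/

/-- The integer matrix whose torus acts freely. -/
def matS : Fin 8 → Fin 4 → ℤ :=
  ![![0, -1, -1, 0], ![-1, 1, 0, 0], ![1, 0, 0, 0], ![0, 1, 0, 0], ![0, 1, 0, -1], ![0, 0, 1, 0], ![1, 0, 1, 1], ![0, 0, 0, 1]]

/-- Facet masks with left inverses of `matS` vanishing on the facets. -/
def invs : List (ℕ × (Fin 4 → Fin 8 → ℤ)) :=
  [(83, ![![0, 0, 1, 0, 0, 0, 0, 0], ![0, 0, 0, 1, 0, 0, 0, 0], ![0, 0, 0, 0, 0, 1, 0, 0], ![0, 0, 0, 0, 0, 0, 0, 1]]),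
   (147, ![![0, 0, 1, 0, 0, 0, 0, 0], ![0, 0, 0, 1, 0, 0, 0, 0], ![0, 0, 0, 0, 0, 1, 0, 0], ![0, 0, -1, 0, 0, -1, 1, 0]]),
   (195, ![![0, 0, 1, 0, 0, 0, 0, 0], ![0, 0, 0, 1, 0, 0, 0, 0], ![0, 0, 0, 0, 0, 1, 0, 0], ![0, 0, 0, 1, -1, 0, 0, 0]]),
   (45, ![![0, -1, 0, 0, 1, 0, 0, 1], ![0, 0, 0, 0, 1, 0, 0, 1], ![0, 1, 0, 0, -1, 0, 1, -2], ![0, 0, 0, 0, 0, 0, 0, 1]]),
   (77, ![![0, -1, 0, 0, 1, 0, 0, 1], ![0, 0, 0, 0, 1, 0, 0, 1], ![0, 0, 0, 0, 0, 1, 0, 0], ![0, 0, 0, 0, 0, 0, 0, 1]]),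
   (85, ![![0, -1, 0, 1, 0, 0, 0, 0], ![0, 0, 0, 1, 0, 0, 0, 0], ![0, 0, 0, 0, 0, 1, 0, 0], ![0, 0, 0, 0, 0, 0, 0, 1]]),
   (149, ![![0, -1, 0, 1, 0, 0, 0, 0], ![0, 0, 0, 1, 0, 0, 0, 0], ![0, 0, 0, 0, 0, 1, 0, 0], ![0, 1, 0, -1, 0, -1, 1, 0]]),
   (165, ![![0, -1, 0, 1, 0, 0, 0, 0], ![0, 0, 0, 1, 0, 0, 0, 0], ![0, 1, 0, -2, 1, 0, 1, 0], ![0, 0, 0, 1, -1, 0, 0, 0]]),
   (169, ![![0, 0, 1, 0, 0, 0, 0, 0], ![0, 1, 1, 0, 0, 0, 0, 0], ![0, -1, -2, 0, 1, 0, 1, 0], ![0, 1, 1, 0, -1, 0, 0, 0]]),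
   (201, ![![0, 0, 1, 0, 0, 0, 0, 0], ![0, 1, 1, 0, 0, 0, 0, 0], ![0, 0, 0, 0, 0, 1, 0, 0], ![0, 1, 1, 0, -1, 0, 0, 0]]),
   (30, ![![0, 0, 0, 0, 0, -1, 1, -1], ![-1, 0, 0, 0, 0, -1, 0, 0], ![0, 0, 0, 0, 0, 1, 0, 0], ![0, 0, 0, 0, 0, 0, 0, 1]]),
   (46, ![![1, 0, 0, 0, 1, 0, 1, 0], ![0, 0, 0, 0, 1, 0, 0, 1], ![-1, 0, 0, 0, -1, 0, 0, -1], ![0, 0, 0, 0, 0, 0, 0, 1]]),
   (54, ![![1, 0, 0, 1, 0, 0, 1, -1], ![0, 0, 0, 1, 0, 0, 0, 0], ![-1, 0, 0, -1, 0, 0, 0, 0], ![0, 0, 0, 0, 0, 0, 0, 1]]),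
   (90, ![![0, 0, 1, 0, 0, 0, 0, 0], ![-1, 0, 0, 0, 0, -1, 0, 0], ![0, 0, 0, 0, 0, 1, 0, 0], ![0, 0, 0, 0, 0, 0, 0, 1]]),
   (106, ![![0, 0, 1, 0, 0, 0, 0, 0], ![0, 0, 0, 0, 1, 0, 0, 1], ![-1, 0, 0, 0, -1, 0, 0, -1], ![0, 0, 0, 0, 0, 0, 0, 1]]),
   (178, ![![0, 0, 1, 0, 0, 0, 0, 0], ![0, 0, 0, 1, 0, 0, 0, 0], ![-1, 0, 0, -1, 0, 0, 0, 0], ![1, 0, -1, 1, 0, 0, 1, 0]]),
   (226, ![![0, 0, 1, 0, 0, 0, 0, 0], ![0, 0, 0, 1, 0, 0, 0, 0], ![-1, 0, 0, -1, 0, 0, 0, 0], ![0, 0, 0, 1, -1, 0, 0, 0]]),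
   (92, ![![-1, -1, 0, 0, 0, -1, 0, 0], ![-1, 0, 0, 0, 0, -1, 0, 0], ![0, 0, 0, 0, 0, 1, 0, 0], ![0, 0, 0, 0, 0, 0, 0, 1]]),
   (180, ![![0, -1, 0, 1, 0, 0, 0, 0], ![0, 0, 0, 1, 0, 0, 0, 0], ![-1, 0, 0, -1, 0, 0, 0, 0], ![1, 1, 0, 0, 0, 0, 1, 0]]),
   (232, ![![0, 0, 1, 0, 0, 0, 0, 0], ![0, 1, 1, 0, 0, 0, 0, 0], ![-1, -1, -1, 0, 0, 0, 0, 0], ![0, 1, 1, 0, -1, 0, 0, 0]])]


theorem invs_ok : ∀ p ∈ invs, (∀ j l, ∑ i, p.2 j i * matS i l = if j = l then 1 else 0) ∧
    ∀ j, ∀ i : Fin 8, p.1.testBit i = true → p.2 j i = 0 := by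
  decide +kernel

theorem invs_masks : ∀ f ∈ kAFacets, ∃ p ∈ invs, p.1 = f := by
  decide +kernel

theorem KA_matS : ∀ σ ∈ cx 8 kAFacets, ∃ M : Fin 4 → Fin 8 → ℤ,
      (∀ j l, ∑ i, M j i * matS i l = if j = l then 1 else 0) ∧ ∀ j, ∀ i ∈ σ, M j i = 0 := by
  rintro σ ⟨f, hf, hσ⟩
  obtain ⟨p, hp, rfl⟩ := invs_masks f hf
  obtain ⟨h1, h2⟩ := invs_ok p hp
  exact ⟨p.2, h1, fun j i hi => h2 j i ((mem_dec _ _).mp (hσ hi))⟩

theorem KA_nonempty : (cx 8 kAFacets).Nonempty := ⟨∅, 83, by decide, by simp⟩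

theorem KA_buchstaber : 4 ≤ buchstaber (cx 8 kAFacets) := by
  refine le_csSup ⟨8, fun r hr => bdd_complex _ r hr⟩ ?_
  exact (toric_free matS KA_matS KA_nonempty).1

theorem KA_realBuchstaber : 4 ≤ realBuchstaber (cx 8 kAFacets) := by
  refine le_csSup ⟨8, fun r hr => bdd_real _ r hr⟩ ?_
  exact (toric_free matS KA_matS KA_nonempty).2

/-! ### The complex `KB` -/

/-- The element of `{±1}^8` of a mask. -/
def el (n : ℕ) : Fin 8 → ℤˣ := fun i => if n.testBit i = true then -1 else 1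

theorem el_xor (a b : ℕ) : el (a ^^^ b) = el a * el b := by
  funext i
  simp only [el, Pi.mul_apply, Nat.testBit_xor]
  cases a.testBit i <;> cases b.testBit i <;> simp

theorem el_surj (u : Fin 8 → ℤˣ) : ∃ n < 2 ^ 8, el n = u := by
  classical
  obtain ⟨n, hn, h⟩ := dec_surj (Finset.univ.filter fun i => u i = -1)
  refine ⟨n, hn, ?_⟩
  funext i
  have h1 : n.testBit i = true ↔ u i = -1 := by
    rw [← mem_dec, h]
    simp
  rcases Int.units_eq_one_or (u i) with h2 | h2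
  · have h3 : ¬ (n.testBit i = true) := by
      rw [h1, h2]
      decide
    simp [el, h3, h2]
  · simp [el, h1.mpr h2, h2]

theorem el_eq_one {n : ℕ} (hn : n < 2 ^ 8) (h : el n = 1) : n = 0 := by
  refine dec_inj (m := 8) hn (by positivity) ?_
  ext i
  rw [mem_dec, mem_dec]
  have h1 := congrFun h i
  simp only [el, Pi.one_apply] at h1
  by_cases h2 : n.testBit i = true
  · rw [if_pos h2] at h1
    exact absurd h1 (by decide)
  · simp [h2]

/-- Nonzero masks of faces of `KB`. -/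
def face (n : ℕ) : Bool := decide (n ≠ 0) && kBFacets.any fun f => decide (n &&& f = n)

theorem not_face {H : Subgroup (Fin 8 → ℤˣ)} (h : RealActsFreely (cx 8 kBFacets) H) {n : ℕ}
    (hn : el n ∈ H) : face n = false := by
  by_contra hc
  rw [Bool.not_eq_false, face, Bool.and_eq_true, decide_eq_true_eq, List.any_eq_true] at hc
  obtain ⟨h0, f, hf, hnf⟩ := hc
  rw [decide_eq_true_eq] at hnf
  have hlt : n < 2 ^ 8 := by
    have h1 : f < 2 ^ 8 := by
      have : ∀ f ∈ kBFacets, f < 2 ^ 8 := by decide +kernel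
      exact this f hf
    have h2 : n &&& f ≤ f := Nat.and_le_right
    omega
  refine h0 (el_eq_one hlt ?_)
  refine real_trivial h hn (σ := dec 8 n) ⟨f, hf, (dec_sub hlt).mpr hnf⟩ ?_
  intro i hi
  rw [mem_dec] at hi
  simp [el, hi]

/-- Search over all candidate generators. -/
def search : ℕ → ℕ → List ℕ → Bool
  | 0, _, _ => false
  | t + 1, w, L => (List.range 16).all fun a =>
      (L.any fun n => face ((w + a) ^^^ n)) ||
        search t (2 * w) (L ++ L.map fun n => (w + a) ^^^ n)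

theorem search_sound {H : Subgroup (Fin 8 → ℤˣ)} (h : RealActsFreely (cx 8 kBFacets) H) :
    ∀ (t w : ℕ) (L : List ℕ), (∀ n ∈ L, el n ∈ H) →
      (∀ s < t, ∃ a < 16, el (w * 2 ^ s + a) ∈ H) → search t w L = false := by
  intro t
  induction t with
  | zero => intro w L _ _; rfl
  | succ t ih =>
    intro w L hL hs
    obtain ⟨a, ha, hau⟩ := hs 0 (Nat.succ_pos t)
    rw [pow_zero, mul_one] at hau
    rw [search, Bool.eq_false_iff]
    intro hall
    rw [List.all_eq_true] at hall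
    have h1 := hall a (List.mem_range.mpr ha)
    have h3 : ∀ n ∈ L, el ((w + a) ^^^ n) ∈ H := by
      intro n hn
      rw [el_xor]
      exact H.mul_mem hau (hL n hn)
    rcases Bool.or_eq_true_iff.mp h1 with h2 | h2
    · rw [List.any_eq_true] at h2
      obtain ⟨n, hn, hf⟩ := h2
      rw [not_face h (h3 n hn)] at hf
      exact Bool.false_ne_true hf
    · rw [ih (2 * w) _ ?_ ?_] at h2
      · exact Bool.false_ne_true h2
      · intro n hn
        rcases List.mem_append.mp hn with h4 | h4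
        · exact hL n h4
        · obtain ⟨n', hn', rfl⟩ := List.mem_map.mp h4
          exact h3 n' hn'
      · intro s hs'
        obtain ⟨b, hb, hbu⟩ := hs (s + 1) (by omega)
        refine ⟨b, hb, ?_⟩
        have : 2 * w * 2 ^ s + b = w * 2 ^ (s + 1) + b := by ring
        rwa [this]

theorem search_true : search 4 16 [0] = true := by
  decide +kernel

theorem bits : ∀ n < 256, ∀ j : Fin 4,
    (∀ i : Fin 4, n.testBit (4 + (i : ℕ)) = decide (i = j)) → n = 16 * 2 ^ (j : ℕ) + n % 16 := by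
  decide +kernel

theorem KB_card {H : Subgroup (Fin 8 → ℤˣ)} (h : RealActsFreely (cx 8 kBFacets) H) :
    Nat.card H < 16 := by
  by_contra hc
  rw [not_lt] at hc
  let ρ : H → (Fin 4 → ℤˣ) := fun u i => (u : Fin 8 → ℤˣ) (i.natAdd 4)
  have hinj : Function.Injective ρ := by
    intro u v huv
    have h1 : ((u : Fin 8 → ℤˣ) * (v : Fin 8 → ℤˣ)⁻¹) = 1 := by
      refine real_trivial h (H.mul_mem u.2 (H.inv_mem v.2)) (σ := dec 8 15)
        ⟨15, by decide, Finset.Subset.refl _⟩ ?_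
      intro i hi
      have h2 : ∀ i : Fin 8, i ∉ dec 8 15 → ∃ j : Fin 4, i = j.natAdd 4 := by
        decide +kernel
      obtain ⟨j, rfl⟩ := h2 i hi
      have h3 : (u : Fin 8 → ℤˣ) (j.natAdd 4) = (v : Fin 8 → ℤˣ) (j.natAdd 4) := congrFun huv j
      rw [Pi.mul_apply, Pi.inv_apply, h3, mul_inv_cancel]
    exact Subtype.ext (mul_inv_eq_one.mp h1)
  have hcard : Nat.card (Fin 4 → ℤˣ) = 16 := by
    rw [Nat.card_eq_fintype_card, Fintype.card_fun, Fintype.card_units_int, Fintype.card_fin]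
    norm_num
  have hbij : Function.Bijective ρ := by
    rw [Nat.bijective_iff_injective_and_card]
    refine ⟨hinj, ?_⟩
    exact le_antisymm (Nat.card_le_card_of_injective ρ hinj) (by rw [hcard]; exact hc)
  have h1 : search 4 16 [0] = false := by
    refine search_sound h 4 16 [0] ?_ ?_
    · intro n hn
      rw [List.mem_singleton.mp hn]
      have : el 0 = 1 := by
        funext i
        simp [el]
      rw [this]
      exact H.one_mem
    · intro s hs
      obtain ⟨u, hu⟩ := hbij.2 (fun i => if i = (⟨s, hs⟩ : Fin 4) then -1 else 1)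
      obtain ⟨n, hn, hnu⟩ := el_surj (u : Fin 8 → ℤˣ)
      refine ⟨n % 16, Nat.mod_lt _ (by norm_num), ?_⟩
      have h2 : n = 16 * 2 ^ s + n % 16 := by
        refine bits n (by simpa using hn) ⟨s, hs⟩ fun i => ?_
        have h3 : (u : Fin 8 → ℤˣ) (i.natAdd 4) = if i = (⟨s, hs⟩ : Fin 4) then -1 else 1 :=
          congrFun hu i
        rw [← hnu] at h3
        simp only [el, Fin.val_natAdd] at h3
        by_cases h4 : i = (⟨s, hs⟩ : Fin 4)
        · rw [if_pos h4] at h3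
          rw [decide_eq_true h4]
          by_contra h5
          rw [if_neg h5] at h3
          exact absurd h3 (by decide)
        · rw [if_neg h4] at h3
          rw [decide_eq_false h4]
          by_contra h5
          rw [Bool.not_eq_false] at h5
          rw [if_pos h5] at h3
          exact absurd h3 (by decide)
      rw [← h2, hnu]
      exact u.2
  rw [search_true] at h1
  exact absurd h1 (by decide)

theorem KB_realBuchstaber : realBuchstaber (cx 8 kBFacets) ≤ 3 := by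
  refine csSup_le' ?_
  rintro r ⟨H, hH, h⟩
  have h1 := KB_card h
  rw [hH] at h1
  by_contra hc
  have h2 : 2 ^ 4 ≤ 2 ^ r := Nat.pow_le_pow_right (by norm_num) (by omega)
  omega

theorem KB_buchstaber : buchstaber (cx 8 kBFacets) ≤ 3 := by
  refine csSup_le' ?_
  rintro r ⟨H, ⟨e⟩, h⟩
  obtain ⟨H', h1, h'⟩ := real_of_complex e h
  have h2 := KB_card h'
  by_contra hc
  have h3 : 2 ^ 4 ≤ 2 ^ r := Nat.pow_le_pow_right (by norm_num) (by omega)
  omega

end Pool.Agent.Lib_helper98.Buch
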