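import Mathlib
import Pool.Agent.Lib_helper98.Buch.Defs
import Pool.Agent.Lib_helper98.Betti.Check
import Pool.Agent.Lib_helper98.Betti.TableA

set_option autoImplicit false
set_option linter.all false

namespace Pool.Agent.Lib_helper98.Buch

open Pool.Agent.Lib_helper98.Betti

/-- The facet normals. -/
def norA : Fin 8 → Fin 4 → ℝ :=
  ![![1, -1, 1, 2], ![-1, 1, -1, -1], ![1, -2, 1, 1], ![0, -1, 2, 1], ![0, -1, 0, 1], ![1, 0, 0, -2], ![-2, 1, 1, 2], ![1, 0, 0, 0]]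

theorem norA_0 (x : Fin 4 → ℝ) : ∑ j, norA 0 j * x j = x 0 - x 1 + x 2 + 2 * x 3 := by
  simp [norA, Fin.sum_univ_four]
  try ring

theorem norA_1 (x : Fin 4 → ℝ) : ∑ j, norA 1 j * x j = -x 0 + x 1 - x 2 - x 3 := by
  simp [norA, Fin.sum_univ_four]
  try ring

theorem norA_2 (x : Fin 4 → ℝ) : ∑ j, norA 2 j * x j = x 0 - 2 * x 1 + x 2 + x 3 := by
  simp [norA, Fin.sum_univ_four]
  try ring

theorem norA_3 (x : Fin 4 → ℝ) : ∑ j, norA 3 j * x j = -x 1 + 2 * x 2 + x 3 := by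
  simp [norA, Fin.sum_univ_four]
  try ring

theorem norA_4 (x : Fin 4 → ℝ) : ∑ j, norA 4 j * x j = -x 1 + x 3 := by
  simp [norA, Fin.sum_univ_four]
  try ring

theorem norA_5 (x : Fin 4 → ℝ) : ∑ j, norA 5 j * x j = x 0 - 2 * x 3 := by
  simp [norA, Fin.sum_univ_four]
  try ring

theorem norA_6 (x : Fin 4 → ℝ) : ∑ j, norA 6 j * x j = -2 * x 0 + x 1 + x 2 + 2 * x 3 := by
  simp [norA, Fin.sum_univ_four]
  try ring

theorem norA_7 (x : Fin 4 → ℝ) : ∑ j, norA 7 j * x j = x 0 := by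
  simp [norA, Fin.sum_univ_four]
  try ring

theorem ineqA {x : Fin 4 → ℝ} (hx : ∀ i, ∑ j, norA i j * x j ≤ 1) :
    x 0 - x 1 + x 2 + 2 * x 3 ≤ 1 ∧ -x 0 + x 1 - x 2 - x 3 ≤ 1 ∧ x 0 - 2 * x 1 + x 2 + x 3 ≤ 1 ∧ -x 1 + 2 * x 2 + x 3 ≤ 1 ∧ -x 1 + x 3 ≤ 1 ∧ x 0 - 2 * x 3 ≤ 1 ∧ -2 * x 0 + x 1 + x 2 + 2 * x 3 ≤ 1 ∧ x 0 ≤ 1 := by
  have h0 := hx 0
  rw [norA_0] at h0
  have h1 := hx 1
  rw [norA_1] at h1
  have h2 := hx 2
  rw [norA_2] at h2
  have h3 := hx 3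
  rw [norA_3] at h3
  have h4 := hx 4
  rw [norA_4] at h4
  have h5 := hx 5
  rw [norA_5] at h5
  have h6 := hx 6
  rw [norA_6] at h6
  have h7 := hx 7
  rw [norA_7] at h7
  exact ⟨h0, h1, h2, h3, h4, h5, h6, h7⟩

theorem nfA_012 {x : Fin 4 → ℝ} (hx : ∀ i, ∑ j, norA i j * x j ≤ 1)
    (hp : ∑ j, norA 0 j * x j = 1) (hq : ∑ j, norA 1 j * x j = 1)
    (hr : ∑ j, norA 2 j * x j = 1) : False := by
  obtain ⟨h0, h1, h2, h3, h4, h5, h6, h7⟩ := ineqA hx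
  rw [norA_0] at hp
  rw [norA_1] at hq
  rw [norA_2] at hr
  linarith

theorem nfA_013 {x : Fin 4 → ℝ} (hx : ∀ i, ∑ j, norA i j * x j ≤ 1)
    (hp : ∑ j, norA 0 j * x j = 1) (hq : ∑ j, norA 1 j * x j = 1)
    (hr : ∑ j, norA 3 j * x j = 1) : False := by
  obtain ⟨h0, h1, h2, h3, h4, h5, h6, h7⟩ := ineqA hx
  rw [norA_0] at hp
  rw [norA_1] at hq
  rw [norA_3] at hr
  linarith

theorem nfA_015 {x : Fin 4 → ℝ} (hx : ∀ i, ∑ j, norA i j * x j ≤ 1)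
    (hp : ∑ j, norA 0 j * x j = 1) (hq : ∑ j, norA 1 j * x j = 1)
    (hr : ∑ j, norA 5 j * x j = 1) : False := by
  obtain ⟨h0, h1, h2, h3, h4, h5, h6, h7⟩ := ineqA hx
  rw [norA_0] at hp
  rw [norA_1] at hq
  rw [norA_5] at hr
  linarith

theorem nfA_034 {x : Fin 4 → ℝ} (hx : ∀ i, ∑ j, norA i j * x j ≤ 1)
    (hp : ∑ j, norA 0 j * x j = 1) (hq : ∑ j, norA 3 j * x j = 1)
    (hr : ∑ j, norA 4 j * x j = 1) : False := by
  obtain ⟨h0, h1, h2, h3, h4, h5, h6, h7⟩ := ineqA hx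
  rw [norA_0] at hp
  rw [norA_3] at hq
  rw [norA_4] at hr
  linarith

theorem nfA_045 {x : Fin 4 → ℝ} (hx : ∀ i, ∑ j, norA i j * x j ≤ 1)
    (hp : ∑ j, norA 0 j * x j = 1) (hq : ∑ j, norA 4 j * x j = 1)
    (hr : ∑ j, norA 5 j * x j = 1) : False := by
  obtain ⟨h0, h1, h2, h3, h4, h5, h6, h7⟩ := ineqA hx
  rw [norA_0] at hp
  rw [norA_4] at hq
  rw [norA_5] at hr
  linarith

theorem nfA_056 {x : Fin 4 → ℝ} (hx : ∀ i, ∑ j, norA i j * x j ≤ 1)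
    (hp : ∑ j, norA 0 j * x j = 1) (hq : ∑ j, norA 5 j * x j = 1)
    (hr : ∑ j, norA 6 j * x j = 1) : False := by
  obtain ⟨h0, h1, h2, h3, h4, h5, h6, h7⟩ := ineqA hx
  rw [norA_0] at hp
  rw [norA_5] at hq
  rw [norA_6] at hr
  linarith

theorem nfA_126 {x : Fin 4 → ℝ} (hx : ∀ i, ∑ j, norA i j * x j ≤ 1)
    (hp : ∑ j, norA 1 j * x j = 1) (hq : ∑ j, norA 2 j * x j = 1)
    (hr : ∑ j, norA 6 j * x j = 1) : False := by
  obtain ⟨h0, h1, h2, h3, h4, h5, h6, h7⟩ := ineqA hx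
  rw [norA_1] at hp
  rw [norA_2] at hq
  rw [norA_6] at hr
  linarith

theorem nfA_127 {x : Fin 4 → ℝ} (hx : ∀ i, ∑ j, norA i j * x j ≤ 1)
    (hp : ∑ j, norA 1 j * x j = 1) (hq : ∑ j, norA 2 j * x j = 1)
    (hr : ∑ j, norA 7 j * x j = 1) : False := by
  obtain ⟨h0, h1, h2, h3, h4, h5, h6, h7⟩ := ineqA hx
  rw [norA_1] at hp
  rw [norA_2] at hq
  rw [norA_7] at hr
  linarith

theorem nfA_137 {x : Fin 4 → ℝ} (hx : ∀ i, ∑ j, norA i j * x j ≤ 1)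
    (hp : ∑ j, norA 1 j * x j = 1) (hq : ∑ j, norA 3 j * x j = 1)
    (hr : ∑ j, norA 7 j * x j = 1) : False := by
  obtain ⟨h0, h1, h2, h3, h4, h5, h6, h7⟩ := ineqA hx
  rw [norA_1] at hp
  rw [norA_3] at hq
  rw [norA_7] at hr
  linarith

theorem nfA_237 {x : Fin 4 → ℝ} (hx : ∀ i, ∑ j, norA i j * x j ≤ 1)
    (hp : ∑ j, norA 2 j * x j = 1) (hq : ∑ j, norA 3 j * x j = 1)
    (hr : ∑ j, norA 7 j * x j = 1) : False := by
  obtain ⟨h0, h1, h2, h3, h4, h5, h6, h7⟩ := ineqA hx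
  rw [norA_2] at hp
  rw [norA_3] at hq
  rw [norA_7] at hr
  linarith

theorem nfA_256 {x : Fin 4 → ℝ} (hx : ∀ i, ∑ j, norA i j * x j ≤ 1)
    (hp : ∑ j, norA 2 j * x j = 1) (hq : ∑ j, norA 5 j * x j = 1)
    (hr : ∑ j, norA 6 j * x j = 1) : False := by
  obtain ⟨h0, h1, h2, h3, h4, h5, h6, h7⟩ := ineqA hx
  rw [norA_2] at hp
  rw [norA_5] at hq
  rw [norA_6] at hr
  linarith

theorem nfA_267 {x : Fin 4 → ℝ} (hx : ∀ i, ∑ j, norA i j * x j ≤ 1)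
    (hp : ∑ j, norA 2 j * x j = 1) (hq : ∑ j, norA 6 j * x j = 1)
    (hr : ∑ j, norA 7 j * x j = 1) : False := by
  obtain ⟨h0, h1, h2, h3, h4, h5, h6, h7⟩ := ineqA hx
  rw [norA_2] at hp
  rw [norA_6] at hq
  rw [norA_7] at hr
  linarith

theorem nfA_345 {x : Fin 4 → ℝ} (hx : ∀ i, ∑ j, norA i j * x j ≤ 1)
    (hp : ∑ j, norA 3 j * x j = 1) (hq : ∑ j, norA 4 j * x j = 1)
    (hr : ∑ j, norA 5 j * x j = 1) : False := by
  obtain ⟨h0, h1, h2, h3, h4, h5, h6, h7⟩ := ineqA hx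
  rw [norA_3] at hp
  rw [norA_4] at hq
  rw [norA_5] at hr
  linarith

theorem nfA_347 {x : Fin 4 → ℝ} (hx : ∀ i, ∑ j, norA i j * x j ≤ 1)
    (hp : ∑ j, norA 3 j * x j = 1) (hq : ∑ j, norA 4 j * x j = 1)
    (hr : ∑ j, norA 7 j * x j = 1) : False := by
  obtain ⟨h0, h1, h2, h3, h4, h5, h6, h7⟩ := ineqA hx
  rw [norA_3] at hp
  rw [norA_4] at hq
  rw [norA_7] at hr
  linarith

theorem nfA_456 {x : Fin 4 → ℝ} (hx : ∀ i, ∑ j, norA i j * x j ≤ 1)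
    (hp : ∑ j, norA 4 j * x j = 1) (hq : ∑ j, norA 5 j * x j = 1)
    (hr : ∑ j, norA 6 j * x j = 1) : False := by
  obtain ⟨h0, h1, h2, h3, h4, h5, h6, h7⟩ := ineqA hx
  rw [norA_4] at hp
  rw [norA_5] at hq
  rw [norA_6] at hr
  linarith

theorem nfA_467 {x : Fin 4 → ℝ} (hx : ∀ i, ∑ j, norA i j * x j ≤ 1)
    (hp : ∑ j, norA 4 j * x j = 1) (hq : ∑ j, norA 6 j * x j = 1)
    (hr : ∑ j, norA 7 j * x j = 1) : False := by
  obtain ⟨h0, h1, h2, h3, h4, h5, h6, h7⟩ := ineqA hx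
  rw [norA_4] at hp
  rw [norA_6] at hq
  rw [norA_7] at hr
  linarith

theorem vertA_0 : (∀ i, ∑ j, norA i j * (![2/3, 1, -8/3, 2] : Fin 4 → ℝ) j ≤ 1) ∧
    ∀ i ∈ dec 8 83, ∑ j, norA i j * (![2/3, 1, -8/3, 2] : Fin 4 → ℝ) j = 1 := by
  constructor
  · intro i
    fin_cases i <;> (simp [norA, Fin.sum_univ_four] <;> norm_num)
  · intro i hi
    rw [mem_dec] at hi
    fin_cases i <;> first | exact absurd hi (by decide) | (simp [norA, Fin.sum_univ_four] <;> norm_num)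

theorem vertA_1 : (∀ i, ∑ j, norA i j * (![1, 1, -3, 2] : Fin 4 → ℝ) j ≤ 1) ∧
    ∀ i ∈ dec 8 147, ∑ j, norA i j * (![1, 1, -3, 2] : Fin 4 → ℝ) j = 1 := by
  constructor
  · intro i
    fin_cases i <;> (simp [norA, Fin.sum_univ_four] <;> norm_num)
  · intro i hi
    rw [mem_dec] at hi
    fin_cases i <;> first | exact absurd hi (by decide) | (simp [norA, Fin.sum_univ_four] <;> norm_num)

theorem vertA_2 : (∀ i, ∑ j, norA i j * (![1, 3/2, -5/2, 2] : Fin 4 → ℝ) j ≤ 1) ∧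
    ∀ i ∈ dec 8 195, ∑ j, norA i j * (![1, 3/2, -5/2, 2] : Fin 4 → ℝ) j = 1 := by
  constructor
  · intro i
    fin_cases i <;> (simp [norA, Fin.sum_univ_four] <;> norm_num)
  · intro i hi
    rw [mem_dec] at hi
    fin_cases i <;> first | exact absurd hi (by decide) | (simp [norA, Fin.sum_univ_four] <;> norm_num)

theorem vertA_3 : (∀ i, ∑ j, norA i j * (![3/4, 1/8, 5/8, -1/8] : Fin 4 → ℝ) j ≤ 1) ∧
    ∀ i ∈ dec 8 45, ∑ j, norA i j * (![3/4, 1/8, 5/8, -1/8] : Fin 4 → ℝ) j = 1 := by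
  constructor
  · intro i
    fin_cases i <;> (simp [norA, Fin.sum_univ_four] <;> norm_num)
  · intro i hi
    rw [mem_dec] at hi
    fin_cases i <;> first | exact absurd hi (by decide) | (simp [norA, Fin.sum_univ_four] <;> norm_num)

theorem vertA_4 : (∀ i, ∑ j, norA i j * (![-1/4, -3/8, 1/8, 3/8] : Fin 4 → ℝ) j ≤ 1) ∧
    ∀ i ∈ dec 8 77, ∑ j, norA i j * (![-1/4, -3/8, 1/8, 3/8] : Fin 4 → ℝ) j = 1 := by
  constructor
  · intro i
    fin_cases i <;> (simp [norA, Fin.sum_univ_four] <;> norm_num)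
  · intro i hi
    rw [mem_dec] at hi
    fin_cases i <;> first | exact absurd hi (by decide) | (simp [norA, Fin.sum_univ_four] <;> norm_num)

theorem vertA_5 : (∀ i, ∑ j, norA i j * (![-1/3, -1/2, -1/6, 1/2] : Fin 4 → ℝ) j ≤ 1) ∧
    ∀ i ∈ dec 8 85, ∑ j, norA i j * (![-1/3, -1/2, -1/6, 1/2] : Fin 4 → ℝ) j = 1 := by
  constructor
  · intro i
    fin_cases i <;> (simp [norA, Fin.sum_univ_four] <;> norm_num)
  · intro i hi
    rw [mem_dec] at hi
    fin_cases i <;> first | exact absurd hi (by decide) | (simp [norA, Fin.sum_univ_four] <;> norm_num)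

theorem vertA_6 : (∀ i, ∑ j, norA i j * (![1, -1/2, -3/2, 1/2] : Fin 4 → ℝ) j ≤ 1) ∧
    ∀ i ∈ dec 8 149, ∑ j, norA i j * (![1, -1/2, -3/2, 1/2] : Fin 4 → ℝ) j = 1 := by
  constructor
  · intro i
    fin_cases i <;> (simp [norA, Fin.sum_univ_four] <;> norm_num)
  · intro i hi
    rw [mem_dec] at hi
    fin_cases i <;> first | exact absurd hi (by decide) | (simp [norA, Fin.sum_univ_four] <;> norm_num)

theorem vertA_7 : (∀ i, ∑ j, norA i j * (![1, 0, 0, 0] : Fin 4 → ℝ) j ≤ 1) ∧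
    ∀ i ∈ dec 8 165, ∑ j, norA i j * (![1, 0, 0, 0] : Fin 4 → ℝ) j = 1 := by
  constructor
  · intro i
    fin_cases i <;> (simp [norA, Fin.sum_univ_four] <;> norm_num)
  · intro i hi
    rw [mem_dec] at hi
    fin_cases i <;> first | exact absurd hi (by decide) | (simp [norA, Fin.sum_univ_four] <;> norm_num)

theorem vertA_8 : (∀ i, ∑ j, norA i j * (![1, 1, 1, 0] : Fin 4 → ℝ) j ≤ 1) ∧
    ∀ i ∈ dec 8 169, ∑ j, norA i j * (![1, 1, 1, 0] : Fin 4 → ℝ) j = 1 := by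
  constructor
  · intro i
    fin_cases i <;> (simp [norA, Fin.sum_univ_four] <;> norm_num)
  · intro i hi
    rw [mem_dec] at hi
    fin_cases i <;> first | exact absurd hi (by decide) | (simp [norA, Fin.sum_univ_four] <;> norm_num)

theorem vertA_9 : (∀ i, ∑ j, norA i j * (![1, 3/2, 7/6, 1/6] : Fin 4 → ℝ) j ≤ 1) ∧
    ∀ i ∈ dec 8 201, ∑ j, norA i j * (![1, 3/2, 7/6, 1/6] : Fin 4 → ℝ) j = 1 := by
  constructor
  · intro i
    fin_cases i <;> (simp [norA, Fin.sum_univ_four] <;> norm_num)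
  · intro i hi
    rw [mem_dec] at hi
    fin_cases i <;> first | exact absurd hi (by decide) | (simp [norA, Fin.sum_univ_four] <;> norm_num)

theorem vertA_10 : (∀ i, ∑ j, norA i j * (![-2, -2, 0, -1] : Fin 4 → ℝ) j ≤ 1) ∧
    ∀ i ∈ dec 8 30, ∑ j, norA i j * (![-2, -2, 0, -1] : Fin 4 → ℝ) j = 1 := by
  constructor
  · intro i
    fin_cases i <;> (simp [norA, Fin.sum_univ_four] <;> norm_num)
  · intro i hi
    rw [mem_dec] at hi
    fin_cases i <;> first | exact absurd hi (by decide) | (simp [norA, Fin.sum_univ_four] <;> norm_num)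

theorem vertA_11 : (∀ i, ∑ j, norA i j * (![-9/5, -2, 1/5, -7/5] : Fin 4 → ℝ) j ≤ 1) ∧
    ∀ i ∈ dec 8 46, ∑ j, norA i j * (![-9/5, -2, 1/5, -7/5] : Fin 4 → ℝ) j = 1 := by
  constructor
  · intro i
    fin_cases i <;> (simp [norA, Fin.sum_univ_four] <;> norm_num)
  · intro i hi
    rw [mem_dec] at hi
    fin_cases i <;> first | exact absurd hi (by decide) | (simp [norA, Fin.sum_univ_four] <;> norm_num)

theorem vertA_12 : (∀ i, ∑ j, norA i j * (![-1, -2, -1, -1] : Fin 4 → ℝ) j ≤ 1) ∧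
    ∀ i ∈ dec 8 54, ∑ j, norA i j * (![-1, -2, -1, -1] : Fin 4 → ℝ) j = 1 := by
  constructor
  · intro i
    fin_cases i <;> (simp [norA, Fin.sum_univ_four] <;> norm_num)
  · intro i hi
    rw [mem_dec] at hi
    fin_cases i <;> first | exact absurd hi (by decide) | (simp [norA, Fin.sum_univ_four] <;> norm_num)

theorem vertA_13 : (∀ i, ∑ j, norA i j * (![-2, -5/3, 0, -2/3] : Fin 4 → ℝ) j ≤ 1) ∧
    ∀ i ∈ dec 8 90, ∑ j, norA i j * (![-2, -5/3, 0, -2/3] : Fin 4 → ℝ) j = 1 := by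
  constructor
  · intro i
    fin_cases i <;> (simp [norA, Fin.sum_univ_four] <;> norm_num)
  · intro i hi
    rw [mem_dec] at hi
    fin_cases i <;> first | exact absurd hi (by decide) | (simp [norA, Fin.sum_univ_four] <;> norm_num)

theorem vertA_14 : (∀ i, ∑ j, norA i j * (![-1, 0, 1, -1] : Fin 4 → ℝ) j ≤ 1) ∧
    ∀ i ∈ dec 8 106, ∑ j, norA i j * (![-1, 0, 1, -1] : Fin 4 → ℝ) j = 1 := by
  constructor
  · intro i
    fin_cases i <;> (simp [norA, Fin.sum_univ_four] <;> norm_num)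
  · intro i hi
    rw [mem_dec] at hi
    fin_cases i <;> first | exact absurd hi (by decide) | (simp [norA, Fin.sum_univ_four] <;> norm_num)

theorem vertA_15 : (∀ i, ∑ j, norA i j * (![1, -1, -3, 0] : Fin 4 → ℝ) j ≤ 1) ∧
    ∀ i ∈ dec 8 178, ∑ j, norA i j * (![1, -1, -3, 0] : Fin 4 → ℝ) j = 1 := by
  constructor
  · intro i
    fin_cases i <;> (simp [norA, Fin.sum_univ_four] <;> norm_num)
  · intro i hi
    rw [mem_dec] at hi
    fin_cases i <;> first | exact absurd hi (by decide) | (simp [norA, Fin.sum_univ_four] <;> norm_num)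

theorem vertA_16 : (∀ i, ∑ j, norA i j * (![1, 5/2, 1/2, 0] : Fin 4 → ℝ) j ≤ 1) ∧
    ∀ i ∈ dec 8 226, ∑ j, norA i j * (![1, 5/2, 1/2, 0] : Fin 4 → ℝ) j = 1 := by
  constructor
  · intro i
    fin_cases i <;> (simp [norA, Fin.sum_univ_four] <;> norm_num)
  · intro i hi
    rw [mem_dec] at hi
    fin_cases i <;> first | exact absurd hi (by decide) | (simp [norA, Fin.sum_univ_four] <;> norm_num)

theorem vertA_17 : (∀ i, ∑ j, norA i j * (![-1, -1, 0, 0] : Fin 4 → ℝ) j ≤ 1) ∧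
    ∀ i ∈ dec 8 92, ∑ j, norA i j * (![-1, -1, 0, 0] : Fin 4 → ℝ) j = 1 := by
  constructor
  · intro i
    fin_cases i <;> (simp [norA, Fin.sum_univ_four] <;> norm_num)
  · intro i hi
    rw [mem_dec] at hi
    fin_cases i <;> first | exact absurd hi (by decide) | (simp [norA, Fin.sum_univ_four] <;> norm_num)

theorem vertA_18 : (∀ i, ∑ j, norA i j * (![1, -1, -2, 0] : Fin 4 → ℝ) j ≤ 1) ∧
    ∀ i ∈ dec 8 180, ∑ j, norA i j * (![1, -1, -2, 0] : Fin 4 → ℝ) j = 1 := by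
  constructor
  · intro i
    fin_cases i <;> (simp [norA, Fin.sum_univ_four] <;> norm_num)
  · intro i hi
    rw [mem_dec] at hi
    fin_cases i <;> first | exact absurd hi (by decide) | (simp [norA, Fin.sum_univ_four] <;> norm_num)

theorem vertA_19 : (∀ i, ∑ j, norA i j * (![1, 5/3, 4/3, 0] : Fin 4 → ℝ) j ≤ 1) ∧
    ∀ i ∈ dec 8 232, ∑ j, norA i j * (![1, 5/3, 4/3, 0] : Fin 4 → ℝ) j = 1 := by
  constructor
  · intro i
    fin_cases i <;> (simp [norA, Fin.sum_univ_four] <;> norm_num)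
  · intro i hi
    rw [mem_dec] at hi
    fin_cases i <;> first | exact absurd hi (by decide) | (simp [norA, Fin.sum_univ_four] <;> norm_num)

theorem facA_0 : ∑ j, norA 0 j * (![5/6, 1/2, -4/3, 1] : Fin 4 → ℝ) j = 1 ∧
    ∀ l, l ≠ 0 → ∑ j, norA l j * (![5/6, 1/2, -4/3, 1] : Fin 4 → ℝ) j < 1 := by
  constructor
  · simp [norA, Fin.sum_univ_four] <;> norm_num
  · intro l hl
    fin_cases l <;> first | exact absurd rfl hl | (simp [norA, Fin.sum_univ_four] <;> norm_num)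

theorem facA_1 : ∑ j, norA 1 j * (![0, 1/2, -1, 1/2] : Fin 4 → ℝ) j = 1 ∧
    ∀ l, l ≠ 1 → ∑ j, norA l j * (![0, 1/2, -1, 1/2] : Fin 4 → ℝ) j < 1 := by
  constructor
  · simp [norA, Fin.sum_univ_four] <;> norm_num
  · intro l hl
    fin_cases l <;> first | exact absurd rfl hl | (simp [norA, Fin.sum_univ_four] <;> norm_num)

theorem facA_2 : ∑ j, norA 2 j * (![-1/2, -1, 0, -1/2] : Fin 4 → ℝ) j = 1 ∧
    ∀ l, l ≠ 2 → ∑ j, norA l j * (![-1/2, -1, 0, -1/2] : Fin 4 → ℝ) j < 1 := by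
  constructor
  · simp [norA, Fin.sum_univ_four] <;> norm_num
  · intro l hl
    fin_cases l <;> first | exact absurd rfl hl | (simp [norA, Fin.sum_univ_four] <;> norm_num)

theorem facA_3 : ∑ j, norA 3 j * (![-1/2, -1/2, 1/2, -1/2] : Fin 4 → ℝ) j = 1 ∧
    ∀ l, l ≠ 3 → ∑ j, norA l j * (![-1/2, -1/2, 1/2, -1/2] : Fin 4 → ℝ) j < 1 := by
  constructor
  · simp [norA, Fin.sum_univ_four] <;> norm_num
  · intro l hl
    fin_cases l <;> first | exact absurd rfl hl | (simp [norA, Fin.sum_univ_four] <;> norm_num)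

theorem facA_4 : ∑ j, norA 4 j * (![0, 0, -3/2, 1] : Fin 4 → ℝ) j = 1 ∧
    ∀ l, l ≠ 4 → ∑ j, norA l j * (![0, 0, -3/2, 1] : Fin 4 → ℝ) j < 1 := by
  constructor
  · simp [norA, Fin.sum_univ_four] <;> norm_num
  · intro l hl
    fin_cases l <;> first | exact absurd rfl hl | (simp [norA, Fin.sum_univ_four] <;> norm_num)

theorem facA_5 : ∑ j, norA 5 j * (![0, 0, 1/2, -1/2] : Fin 4 → ℝ) j = 1 ∧
    ∀ l, l ≠ 5 → ∑ j, norA l j * (![0, 0, 1/2, -1/2] : Fin 4 → ℝ) j < 1 := by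
  constructor
  · simp [norA, Fin.sum_univ_four] <;> norm_num
  · intro l hl
    fin_cases l <;> first | exact absurd rfl hl | (simp [norA, Fin.sum_univ_four] <;> norm_num)

theorem facA_6 : ∑ j, norA 6 j * (![0, 1/4, -5/4, 1] : Fin 4 → ℝ) j = 1 ∧
    ∀ l, l ≠ 6 → ∑ j, norA l j * (![0, 1/4, -5/4, 1] : Fin 4 → ℝ) j < 1 := by
  constructor
  · simp [norA, Fin.sum_univ_four] <;> norm_num
  · intro l hl
    fin_cases l <;> first | exact absurd rfl hl | (simp [norA, Fin.sum_univ_four] <;> norm_num)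

theorem facA_7 : ∑ j, norA 7 j * (![1, 1/4, -9/4, 1] : Fin 4 → ℝ) j = 1 ∧
    ∀ l, l ≠ 7 → ∑ j, norA l j * (![1, 1/4, -9/4, 1] : Fin 4 → ℝ) j < 1 := by
  constructor
  · simp [norA, Fin.sum_univ_four] <;> norm_num
  · intro l hl
    fin_cases l <;> first | exact absurd rfl hl | (simp [norA, Fin.sum_univ_four] <;> norm_num)

/-- The minimal non-faces. -/
def mnfA : List ℕ := [7, 11, 35, 25, 49, 97, 70, 134, 138, 140, 100, 196, 56, 152, 112, 208]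

theorem nonfaceA {x : Fin 4 → ℝ} (hx : ∀ i, ∑ j, norA i j * x j ≤ 1) {T : ℕ} (hT : T ∈ mnfA)
    (h : ∀ i ∈ dec 8 T, ∑ j, norA i j * x j = 1) : False := by
  simp only [mnfA, List.mem_cons, List.mem_nil_iff, or_false] at hT
  rcases hT with rfl | rfl | rfl | rfl | rfl | rfl | rfl | rfl | rfl | rfl | rfl | rfl | rfl | rfl | rfl | rfl
  · exact nfA_012 hx (h 0 (by decide)) (h 1 (by decide)) (h 2 (by decide))
  · exact nfA_013 hx (h 0 (by decide)) (h 1 (by decide)) (h 3 (by decide))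
  · exact nfA_015 hx (h 0 (by decide)) (h 1 (by decide)) (h 5 (by decide))
  · exact nfA_034 hx (h 0 (by decide)) (h 3 (by decide)) (h 4 (by decide))
  · exact nfA_045 hx (h 0 (by decide)) (h 4 (by decide)) (h 5 (by decide))
  · exact nfA_056 hx (h 0 (by decide)) (h 5 (by decide)) (h 6 (by decide))
  · exact nfA_126 hx (h 1 (by decide)) (h 2 (by decide)) (h 6 (by decide))
  · exact nfA_127 hx (h 1 (by decide)) (h 2 (by decide)) (h 7 (by decide))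
  · exact nfA_137 hx (h 1 (by decide)) (h 3 (by decide)) (h 7 (by decide))
  · exact nfA_237 hx (h 2 (by decide)) (h 3 (by decide)) (h 7 (by decide))
  · exact nfA_256 hx (h 2 (by decide)) (h 5 (by decide)) (h 6 (by decide))
  · exact nfA_267 hx (h 2 (by decide)) (h 6 (by decide)) (h 7 (by decide))
  · exact nfA_345 hx (h 3 (by decide)) (h 4 (by decide)) (h 5 (by decide))
  · exact nfA_347 hx (h 3 (by decide)) (h 4 (by decide)) (h 7 (by decide))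
  · exact nfA_456 hx (h 4 (by decide)) (h 5 (by decide)) (h 6 (by decide))
  · exact nfA_467 hx (h 4 (by decide)) (h 6 (by decide)) (h 7 (by decide))

theorem chkmnfA : ∀ n < 256, (∃ f ∈ kAFacets, n &&& f = n) ∨ ∃ T ∈ mnfA, T &&& n = T := by
  decide +kernel

theorem subA {x : Fin 4 → ℝ} (hx : ∀ i, ∑ j, norA i j * x j ≤ 1) {σ : Finset (Fin 8)}
    (h : ∀ i ∈ σ, ∑ j, norA i j * x j = 1) : σ ∈ cx 8 kAFacets := by
  obtain ⟨n, hn, rfl⟩ := dec_surj σ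
  rcases chkmnfA n (by simpa using hn) with ⟨f, hf, hnf⟩ | ⟨T, hT, hTn⟩
  · exact ⟨f, hf, (dec_sub hn).mpr hnf⟩
  · exfalso
    refine nonfaceA hx hT fun i hi => h i ?_
    refine (dec_sub (m := 8) (n := T) (c := n) ?_).mpr hTn hi
    have : ∀ T ∈ mnfA, T < 2 ^ 8 := by decide
    exact this T hT

theorem card_facetsA : ∀ f ∈ kAFacets, (dec 8 f).card = 4 := by decide

/-- The polytope. -/
noncomputable def polyA : SimplePolytope 4 8 where
  a := norA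
  b := fun _ => 1
  bounded := by
    refine (Metric.isBounded_Icc (fun _ => (-4 : ℝ)) (fun _ => (4 : ℝ))).subset ?_
    intro x hx
    obtain ⟨h0, h1, h2, h3, h4, h5, h6, h7⟩ := ineqA (x := x) hx
    constructor
    · intro i
      fin_cases i <;> simp only [Fin.zero_eta, Fin.mk_one, Fin.reduceFinMk] <;> linarith
    · intro i
      fin_cases i <;> simp only [Fin.zero_eta, Fin.mk_one, Fin.reduceFinMk] <;> linarith
  interior := by
    refine ⟨fun _ => 0, fun i => ?_⟩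
    simp
  facet := by
    intro i
    fin_cases i
    · exact ⟨_, facA_0⟩
    · exact ⟨_, facA_1⟩
    · exact ⟨_, facA_2⟩
    · exact ⟨_, facA_3⟩
    · exact ⟨_, facA_4⟩
    · exact ⟨_, facA_5⟩
    · exact ⟨_, facA_6⟩
    · exact ⟨_, facA_7⟩
  simple := by
    intro x hx σ hσ
    obtain ⟨f, hf, hsub⟩ := subA hx hσ
    exact (Finset.card_le_card hsub).trans (card_facetsA f hf).le

theorem polyA_complex : polyA.complex = cx 8 kAFacets := by
  apply Set.Subset.antisymm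
  · rintro σ ⟨x, hx, hσ⟩
    exact subA hx hσ
  · rintro σ ⟨f, hf, hσ⟩
    simp only [kAFacets, List.mem_cons, List.mem_nil_iff, or_false] at hf
    rcases hf with rfl | rfl | rfl | rfl | rfl | rfl | rfl | rfl | rfl | rfl | rfl | rfl | rfl | rfl | rfl | rfl | rfl | rfl | rfl | rfl
    · exact ⟨_, vertA_0.1, fun i hi => vertA_0.2 i (hσ hi)⟩
    · exact ⟨_, vertA_1.1, fun i hi => vertA_1.2 i (hσ hi)⟩
    · exact ⟨_, vertA_2.1, fun i hi => vertA_2.2 i (hσ hi)⟩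
    · exact ⟨_, vertA_3.1, fun i hi => vertA_3.2 i (hσ hi)⟩
    · exact ⟨_, vertA_4.1, fun i hi => vertA_4.2 i (hσ hi)⟩
    · exact ⟨_, vertA_5.1, fun i hi => vertA_5.2 i (hσ hi)⟩
    · exact ⟨_, vertA_6.1, fun i hi => vertA_6.2 i (hσ hi)⟩
    · exact ⟨_, vertA_7.1, fun i hi => vertA_7.2 i (hσ hi)⟩
    · exact ⟨_, vertA_8.1, fun i hi => vertA_8.2 i (hσ hi)⟩
    · exact ⟨_, vertA_9.1, fun i hi => vertA_9.2 i (hσ hi)⟩
    · exact ⟨_, vertA_10.1, fun i hi => vertA_10.2 i (hσ hi)⟩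
    · exact ⟨_, vertA_11.1, fun i hi => vertA_11.2 i (hσ hi)⟩
    · exact ⟨_, vertA_12.1, fun i hi => vertA_12.2 i (hσ hi)⟩
    · exact ⟨_, vertA_13.1, fun i hi => vertA_13.2 i (hσ hi)⟩
    · exact ⟨_, vertA_14.1, fun i hi => vertA_14.2 i (hσ hi)⟩
    · exact ⟨_, vertA_15.1, fun i hi => vertA_15.2 i (hσ hi)⟩
    · exact ⟨_, vertA_16.1, fun i hi => vertA_16.2 i (hσ hi)⟩
    · exact ⟨_, vertA_17.1, fun i hi => vertA_17.2 i (hσ hi)⟩
    · exact ⟨_, vertA_18.1, fun i hi => vertA_18.2 i (hσ hi)⟩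
    · exact ⟨_, vertA_19.1, fun i hi => vertA_19.2 i (hσ hi)⟩

end Pool.Agent.Lib_helper98.Buch
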