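import Mathlib
import Pool.Agent.Lib_helper98.Buch.Defs
import Pool.Agent.Lib_helper98.Betti.Check
import Pool.Agent.Lib_helper98.Betti.TableB

set_option autoImplicit false
set_option linter.all false

namespace Pool.Agent.Lib_helper98.Buch

open Pool.Agent.Lib_helper98.Betti

/-- The facet normals. -/
def norB : Fin 8 → Fin 4 → ℝ :=
  ![![1, -1, 1, 1], ![-2, -1, 1, -3], ![1, 0, 1, -1], ![-2, -1, -2, 0], ![0, 0, -2, 1], ![0, 1, -1, 0], ![-2, 0, 1, -1], ![0, -2, 2, 1]]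

theorem norB_0 (x : Fin 4 → ℝ) : ∑ j, norB 0 j * x j = x 0 - x 1 + x 2 + x 3 := by
  simp [norB, Fin.sum_univ_four]
  try ring

theorem norB_1 (x : Fin 4 → ℝ) : ∑ j, norB 1 j * x j = -2 * x 0 - x 1 + x 2 - 3 * x 3 := by
  simp [norB, Fin.sum_univ_four]
  try ring

theorem norB_2 (x : Fin 4 → ℝ) : ∑ j, norB 2 j * x j = x 0 + x 2 - x 3 := by
  simp [norB, Fin.sum_univ_four]
  try ring

theorem norB_3 (x : Fin 4 → ℝ) : ∑ j, norB 3 j * x j = -2 * x 0 - x 1 - 2 * x 2 := by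
  simp [norB, Fin.sum_univ_four]
  try ring

theorem norB_4 (x : Fin 4 → ℝ) : ∑ j, norB 4 j * x j = -2 * x 2 + x 3 := by
  simp [norB, Fin.sum_univ_four]
  try ring

theorem norB_5 (x : Fin 4 → ℝ) : ∑ j, norB 5 j * x j = x 1 - x 2 := by
  simp [norB, Fin.sum_univ_four]
  try ring

theorem norB_6 (x : Fin 4 → ℝ) : ∑ j, norB 6 j * x j = -2 * x 0 + x 2 - x 3 := by
  simp [norB, Fin.sum_univ_four]
  try ring

theorem norB_7 (x : Fin 4 → ℝ) : ∑ j, norB 7 j * x j = -2 * x 1 + 2 * x 2 + x 3 := by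
  simp [norB, Fin.sum_univ_four]
  try ring

theorem ineqB {x : Fin 4 → ℝ} (hx : ∀ i, ∑ j, norB i j * x j ≤ 1) :
    x 0 - x 1 + x 2 + x 3 ≤ 1 ∧ -2 * x 0 - x 1 + x 2 - 3 * x 3 ≤ 1 ∧ x 0 + x 2 - x 3 ≤ 1 ∧ -2 * x 0 - x 1 - 2 * x 2 ≤ 1 ∧ -2 * x 2 + x 3 ≤ 1 ∧ x 1 - x 2 ≤ 1 ∧ -2 * x 0 + x 2 - x 3 ≤ 1 ∧ -2 * x 1 + 2 * x 2 + x 3 ≤ 1 := by
  have h0 := hx 0
  rw [norB_0] at h0
  have h1 := hx 1
  rw [norB_1] at h1
  have h2 := hx 2
  rw [norB_2] at h2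
  have h3 := hx 3
  rw [norB_3] at h3
  have h4 := hx 4
  rw [norB_4] at h4
  have h5 := hx 5
  rw [norB_5] at h5
  have h6 := hx 6
  rw [norB_6] at h6
  have h7 := hx 7
  rw [norB_7] at h7
  exact ⟨h0, h1, h2, h3, h4, h5, h6, h7⟩

theorem nfB_014 {x : Fin 4 → ℝ} (hx : ∀ i, ∑ j, norB i j * x j ≤ 1)
    (hp : ∑ j, norB 0 j * x j = 1) (hq : ∑ j, norB 1 j * x j = 1)
    (hr : ∑ j, norB 4 j * x j = 1) : False := by
  obtain ⟨h0, h1, h2, h3, h4, h5, h6, h7⟩ := ineqB hx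
  rw [norB_0] at hp
  rw [norB_1] at hq
  rw [norB_4] at hr
  linarith

theorem nfB_015 {x : Fin 4 → ℝ} (hx : ∀ i, ∑ j, norB i j * x j ≤ 1)
    (hp : ∑ j, norB 0 j * x j = 1) (hq : ∑ j, norB 1 j * x j = 1)
    (hr : ∑ j, norB 5 j * x j = 1) : False := by
  obtain ⟨h0, h1, h2, h3, h4, h5, h6, h7⟩ := ineqB hx
  rw [norB_0] at hp
  rw [norB_1] at hq
  rw [norB_5] at hr
  linarith

theorem nfB_016 {x : Fin 4 → ℝ} (hx : ∀ i, ∑ j, norB i j * x j ≤ 1)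
    (hp : ∑ j, norB 0 j * x j = 1) (hq : ∑ j, norB 1 j * x j = 1)
    (hr : ∑ j, norB 6 j * x j = 1) : False := by
  obtain ⟨h0, h1, h2, h3, h4, h5, h6, h7⟩ := ineqB hx
  rw [norB_0] at hp
  rw [norB_1] at hq
  rw [norB_6] at hr
  linarith

theorem nfB_035 {x : Fin 4 → ℝ} (hx : ∀ i, ∑ j, norB i j * x j ≤ 1)
    (hp : ∑ j, norB 0 j * x j = 1) (hq : ∑ j, norB 3 j * x j = 1)
    (hr : ∑ j, norB 5 j * x j = 1) : False := by
  obtain ⟨h0, h1, h2, h3, h4, h5, h6, h7⟩ := ineqB hx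
  rw [norB_0] at hp
  rw [norB_3] at hq
  rw [norB_5] at hr
  linarith

theorem nfB_036 {x : Fin 4 → ℝ} (hx : ∀ i, ∑ j, norB i j * x j ≤ 1)
    (hp : ∑ j, norB 0 j * x j = 1) (hq : ∑ j, norB 3 j * x j = 1)
    (hr : ∑ j, norB 6 j * x j = 1) : False := by
  obtain ⟨h0, h1, h2, h3, h4, h5, h6, h7⟩ := ineqB hx
  rw [norB_0] at hp
  rw [norB_3] at hq
  rw [norB_6] at hr
  linarith

theorem nfB_046 {x : Fin 4 → ℝ} (hx : ∀ i, ∑ j, norB i j * x j ≤ 1)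
    (hp : ∑ j, norB 0 j * x j = 1) (hq : ∑ j, norB 4 j * x j = 1)
    (hr : ∑ j, norB 6 j * x j = 1) : False := by
  obtain ⟨h0, h1, h2, h3, h4, h5, h6, h7⟩ := ineqB hx
  rw [norB_0] at hp
  rw [norB_4] at hq
  rw [norB_6] at hr
  linarith

theorem nfB_146 {x : Fin 4 → ℝ} (hx : ∀ i, ∑ j, norB i j * x j ≤ 1)
    (hp : ∑ j, norB 1 j * x j = 1) (hq : ∑ j, norB 4 j * x j = 1)
    (hr : ∑ j, norB 6 j * x j = 1) : False := by
  obtain ⟨h0, h1, h2, h3, h4, h5, h6, h7⟩ := ineqB hx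
  rw [norB_1] at hp
  rw [norB_4] at hq
  rw [norB_6] at hr
  linarith

theorem nfB_147 {x : Fin 4 → ℝ} (hx : ∀ i, ∑ j, norB i j * x j ≤ 1)
    (hp : ∑ j, norB 1 j * x j = 1) (hq : ∑ j, norB 4 j * x j = 1)
    (hr : ∑ j, norB 7 j * x j = 1) : False := by
  obtain ⟨h0, h1, h2, h3, h4, h5, h6, h7⟩ := ineqB hx
  rw [norB_1] at hp
  rw [norB_4] at hq
  rw [norB_7] at hr
  linarith

theorem nfB_157 {x : Fin 4 → ℝ} (hx : ∀ i, ∑ j, norB i j * x j ≤ 1)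
    (hp : ∑ j, norB 1 j * x j = 1) (hq : ∑ j, norB 5 j * x j = 1)
    (hr : ∑ j, norB 7 j * x j = 1) : False := by
  obtain ⟨h0, h1, h2, h3, h4, h5, h6, h7⟩ := ineqB hx
  rw [norB_1] at hp
  rw [norB_5] at hq
  rw [norB_7] at hr
  linarith

theorem nfB_235 {x : Fin 4 → ℝ} (hx : ∀ i, ∑ j, norB i j * x j ≤ 1)
    (hp : ∑ j, norB 2 j * x j = 1) (hq : ∑ j, norB 3 j * x j = 1)
    (hr : ∑ j, norB 5 j * x j = 1) : False := by
  obtain ⟨h0, h1, h2, h3, h4, h5, h6, h7⟩ := ineqB hx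
  rw [norB_2] at hp
  rw [norB_3] at hq
  rw [norB_5] at hr
  linarith

theorem nfB_236 {x : Fin 4 → ℝ} (hx : ∀ i, ∑ j, norB i j * x j ≤ 1)
    (hp : ∑ j, norB 2 j * x j = 1) (hq : ∑ j, norB 3 j * x j = 1)
    (hr : ∑ j, norB 6 j * x j = 1) : False := by
  obtain ⟨h0, h1, h2, h3, h4, h5, h6, h7⟩ := ineqB hx
  rw [norB_2] at hp
  rw [norB_3] at hq
  rw [norB_6] at hr
  linarith

theorem nfB_237 {x : Fin 4 → ℝ} (hx : ∀ i, ∑ j, norB i j * x j ≤ 1)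
    (hp : ∑ j, norB 2 j * x j = 1) (hq : ∑ j, norB 3 j * x j = 1)
    (hr : ∑ j, norB 7 j * x j = 1) : False := by
  obtain ⟨h0, h1, h2, h3, h4, h5, h6, h7⟩ := ineqB hx
  rw [norB_2] at hp
  rw [norB_3] at hq
  rw [norB_7] at hr
  linarith

theorem nfB_246 {x : Fin 4 → ℝ} (hx : ∀ i, ∑ j, norB i j * x j ≤ 1)
    (hp : ∑ j, norB 2 j * x j = 1) (hq : ∑ j, norB 4 j * x j = 1)
    (hr : ∑ j, norB 6 j * x j = 1) : False := by
  obtain ⟨h0, h1, h2, h3, h4, h5, h6, h7⟩ := ineqB hx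
  rw [norB_2] at hp
  rw [norB_4] at hq
  rw [norB_6] at hr
  linarith

theorem nfB_247 {x : Fin 4 → ℝ} (hx : ∀ i, ∑ j, norB i j * x j ≤ 1)
    (hp : ∑ j, norB 2 j * x j = 1) (hq : ∑ j, norB 4 j * x j = 1)
    (hr : ∑ j, norB 7 j * x j = 1) : False := by
  obtain ⟨h0, h1, h2, h3, h4, h5, h6, h7⟩ := ineqB hx
  rw [norB_2] at hp
  rw [norB_4] at hq
  rw [norB_7] at hr
  linarith

theorem nfB_257 {x : Fin 4 → ℝ} (hx : ∀ i, ∑ j, norB i j * x j ≤ 1)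
    (hp : ∑ j, norB 2 j * x j = 1) (hq : ∑ j, norB 5 j * x j = 1)
    (hr : ∑ j, norB 7 j * x j = 1) : False := by
  obtain ⟨h0, h1, h2, h3, h4, h5, h6, h7⟩ := ineqB hx
  rw [norB_2] at hp
  rw [norB_5] at hq
  rw [norB_7] at hr
  linarith

theorem nfB_357 {x : Fin 4 → ℝ} (hx : ∀ i, ∑ j, norB i j * x j ≤ 1)
    (hp : ∑ j, norB 3 j * x j = 1) (hq : ∑ j, norB 5 j * x j = 1)
    (hr : ∑ j, norB 7 j * x j = 1) : False := by
  obtain ⟨h0, h1, h2, h3, h4, h5, h6, h7⟩ := ineqB hx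
  rw [norB_3] at hp
  rw [norB_5] at hq
  rw [norB_7] at hr
  linarith

theorem vertB_0 : (∀ i, ∑ j, norB i j * (![1, -3/2, -3/4, -3/4] : Fin 4 → ℝ) j ≤ 1) ∧
    ∀ i ∈ dec 8 15, ∑ j, norB i j * (![1, -3/2, -3/4, -3/4] : Fin 4 → ℝ) j = 1 := by
  constructor
  · intro i
    fin_cases i <;> (simp [norB, Fin.sum_univ_four] <;> norm_num)
  · intro i hi
    rw [mem_dec] at hi
    fin_cases i <;> first | exact absurd hi (by decide) | (simp [norB, Fin.sum_univ_four] <;> norm_num)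

theorem vertB_1 : (∀ i, ∑ j, norB i j * (![4/5, -6/5, -2/5, -3/5] : Fin 4 → ℝ) j ≤ 1) ∧
    ∀ i ∈ dec 8 135, ∑ j, norB i j * (![4/5, -6/5, -2/5, -3/5] : Fin 4 → ℝ) j = 1 := by
  constructor
  · intro i
    fin_cases i <;> (simp [norB, Fin.sum_univ_four] <;> norm_num)
  · intro i hi
    rw [mem_dec] at hi
    fin_cases i <;> first | exact absurd hi (by decide) | (simp [norB, Fin.sum_univ_four] <;> norm_num)

theorem vertB_2 : (∀ i, ∑ j, norB i j * (![4/5, -7/5, -3/5, -3/5] : Fin 4 → ℝ) j ≤ 1) ∧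
    ∀ i ∈ dec 8 139, ∑ j, norB i j * (![4/5, -7/5, -3/5, -3/5] : Fin 4 → ℝ) j = 1 := by
  constructor
  · intro i
    fin_cases i <;> (simp [norB, Fin.sum_univ_four] <;> norm_num)
  · intro i hi
    rw [mem_dec] at hi
    fin_cases i <;> first | exact absurd hi (by decide) | (simp [norB, Fin.sum_univ_four] <;> norm_num)

theorem vertB_3 : (∀ i, ∑ j, norB i j * (![9/8, -3/2, -7/8, -3/4] : Fin 4 → ℝ) j ≤ 1) ∧
    ∀ i ∈ dec 8 29, ∑ j, norB i j * (![9/8, -3/2, -7/8, -3/4] : Fin 4 → ℝ) j = 1 := by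
  constructor
  · intro i
    fin_cases i <;> (simp [norB, Fin.sum_univ_four] <;> norm_num)
  · intro i hi
    rw [mem_dec] at hi
    fin_cases i <;> first | exact absurd hi (by decide) | (simp [norB, Fin.sum_univ_four] <;> norm_num)

theorem vertB_4 : (∀ i, ∑ j, norB i j * (![5/3, 2/3, -1/3, 1/3] : Fin 4 → ℝ) j ≤ 1) ∧
    ∀ i ∈ dec 8 53, ∑ j, norB i j * (![5/3, 2/3, -1/3, 1/3] : Fin 4 → ℝ) j = 1 := by
  constructor
  · intro i
    fin_cases i <;> (simp [norB, Fin.sum_univ_four] <;> norm_num)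
  · intro i hi
    rw [mem_dec] at hi
    fin_cases i <;> first | exact absurd hi (by decide) | (simp [norB, Fin.sum_univ_four] <;> norm_num)

theorem vertB_5 : (∀ i, ∑ j, norB i j * (![0, 4, 3, 2] : Fin 4 → ℝ) j ≤ 1) ∧
    ∀ i ∈ dec 8 101, ∑ j, norB i j * (![0, 4, 3, 2] : Fin 4 → ℝ) j = 1 := by
  constructor
  · intro i
    fin_cases i <;> (simp [norB, Fin.sum_univ_four] <;> norm_num)
  · intro i hi
    rw [mem_dec] at hi
    fin_cases i <;> first | exact absurd hi (by decide) | (simp [norB, Fin.sum_univ_four] <;> norm_num)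

theorem vertB_6 : (∀ i, ∑ j, norB i j * (![0, 2, 2, 1] : Fin 4 → ℝ) j ≤ 1) ∧
    ∀ i ∈ dec 8 197, ∑ j, norB i j * (![0, 2, 2, 1] : Fin 4 → ℝ) j = 1 := by
  constructor
  · intro i
    fin_cases i <;> (simp [norB, Fin.sum_univ_four] <;> norm_num)
  · intro i hi
    rw [mem_dec] at hi
    fin_cases i <;> first | exact absurd hi (by decide) | (simp [norB, Fin.sum_univ_four] <;> norm_num)

theorem vertB_7 : (∀ i, ∑ j, norB i j * (![1/2, -1, -1/2, 0] : Fin 4 → ℝ) j ≤ 1) ∧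
    ∀ i ∈ dec 8 153, ∑ j, norB i j * (![1/2, -1, -1/2, 0] : Fin 4 → ℝ) j = 1 := by
  constructor
  · intro i
    fin_cases i <;> (simp [norB, Fin.sum_univ_four] <;> norm_num)
  · intro i hi
    rw [mem_dec] at hi
    fin_cases i <;> first | exact absurd hi (by decide) | (simp [norB, Fin.sum_univ_four] <;> norm_num)

theorem vertB_8 : (∀ i, ∑ j, norB i j * (![-1, 2, 1, 3] : Fin 4 → ℝ) j ≤ 1) ∧
    ∀ i ∈ dec 8 177, ∑ j, norB i j * (![-1, 2, 1, 3] : Fin 4 → ℝ) j = 1 := by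
  constructor
  · intro i
    fin_cases i <;> (simp [norB, Fin.sum_univ_four] <;> norm_num)
  · intro i hi
    rw [mem_dec] at hi
    fin_cases i <;> first | exact absurd hi (by decide) | (simp [norB, Fin.sum_univ_four] <;> norm_num)

theorem vertB_9 : (∀ i, ∑ j, norB i j * (![-1, 3, 2, 3] : Fin 4 → ℝ) j ≤ 1) ∧
    ∀ i ∈ dec 8 225, ∑ j, norB i j * (![-1, 3, 2, 3] : Fin 4 → ℝ) j = 1 := by
  constructor
  · intro i
    fin_cases i <;> (simp [norB, Fin.sum_univ_four] <;> norm_num)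
  · intro i hi
    rw [mem_dec] at hi
    fin_cases i <;> first | exact absurd hi (by decide) | (simp [norB, Fin.sum_univ_four] <;> norm_num)

theorem vertB_10 : (∀ i, ∑ j, norB i j * (![1, -1, -1, -1] : Fin 4 → ℝ) j ≤ 1) ∧
    ∀ i ∈ dec 8 30, ∑ j, norB i j * (![1, -1, -1, -1] : Fin 4 → ℝ) j = 1 := by
  constructor
  · intro i
    fin_cases i <;> (simp [norB, Fin.sum_univ_four] <;> norm_num)
  · intro i hi
    rw [mem_dec] at hi
    fin_cases i <;> first | exact absurd hi (by decide) | (simp [norB, Fin.sum_univ_four] <;> norm_num)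

theorem vertB_11 : (∀ i, ∑ j, norB i j * (![7/8, -1/8, -9/8, -5/4] : Fin 4 → ℝ) j ≤ 1) ∧
    ∀ i ∈ dec 8 54, ∑ j, norB i j * (![7/8, -1/8, -9/8, -5/4] : Fin 4 → ℝ) j = 1 := by
  constructor
  · intro i
    fin_cases i <;> (simp [norB, Fin.sum_univ_four] <;> norm_num)
  · intro i hi
    rw [mem_dec] at hi
    fin_cases i <;> first | exact absurd hi (by decide) | (simp [norB, Fin.sum_univ_four] <;> norm_num)

theorem vertB_12 : (∀ i, ∑ j, norB i j * (![0, 4/3, 1/3, -2/3] : Fin 4 → ℝ) j ≤ 1) ∧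
    ∀ i ∈ dec 8 102, ∑ j, norB i j * (![0, 4/3, 1/3, -2/3] : Fin 4 → ℝ) j = 1 := by
  constructor
  · intro i
    fin_cases i <;> (simp [norB, Fin.sum_univ_four] <;> norm_num)
  · intro i hi
    rw [mem_dec] at hi
    fin_cases i <;> first | exact absurd hi (by decide) | (simp [norB, Fin.sum_univ_four] <;> norm_num)

theorem vertB_13 : (∀ i, ∑ j, norB i j * (![0, 2/7, 6/7, -1/7] : Fin 4 → ℝ) j ≤ 1) ∧
    ∀ i ∈ dec 8 198, ∑ j, norB i j * (![0, 2/7, 6/7, -1/7] : Fin 4 → ℝ) j = 1 := by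
  constructor
  · intro i
    fin_cases i <;> (simp [norB, Fin.sum_univ_four] <;> norm_num)
  · intro i hi
    rw [mem_dec] at hi
    fin_cases i <;> first | exact absurd hi (by decide) | (simp [norB, Fin.sum_univ_four] <;> norm_num)

theorem vertB_14 : (∀ i, ∑ j, norB i j * (![1/2, 0, -1, -1] : Fin 4 → ℝ) j ≤ 1) ∧
    ∀ i ∈ dec 8 58, ∑ j, norB i j * (![1/2, 0, -1, -1] : Fin 4 → ℝ) j = 1 := by
  constructor
  · intro i
    fin_cases i <;> (simp [norB, Fin.sum_univ_four] <;> norm_num)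
  · intro i hi
    rw [mem_dec] at hi
    fin_cases i <;> first | exact absurd hi (by decide) | (simp [norB, Fin.sum_univ_four] <;> norm_num)

theorem vertB_15 : (∀ i, ∑ j, norB i j * (![-1/2, 2/3, -1/3, -1/3] : Fin 4 → ℝ) j ≤ 1) ∧
    ∀ i ∈ dec 8 106, ∑ j, norB i j * (![-1/2, 2/3, -1/3, -1/3] : Fin 4 → ℝ) j = 1 := by
  constructor
  · intro i
    fin_cases i <;> (simp [norB, Fin.sum_univ_four] <;> norm_num)
  · intro i hi
    rw [mem_dec] at hi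
    fin_cases i <;> first | exact absurd hi (by decide) | (simp [norB, Fin.sum_univ_four] <;> norm_num)

theorem vertB_16 : (∀ i, ∑ j, norB i j * (![-1/2, -2/7, 1/7, 1/7] : Fin 4 → ℝ) j ≤ 1) ∧
    ∀ i ∈ dec 8 202, ∑ j, norB i j * (![-1/2, -2/7, 1/7, 1/7] : Fin 4 → ℝ) j = 1 := by
  constructor
  · intro i
    fin_cases i <;> (simp [norB, Fin.sum_univ_four] <;> norm_num)
  · intro i hi
    rw [mem_dec] at hi
    fin_cases i <;> first | exact absurd hi (by decide) | (simp [norB, Fin.sum_univ_four] <;> norm_num)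

theorem vertB_17 : (∀ i, ∑ j, norB i j * (![-1, 1, 0, 1] : Fin 4 → ℝ) j ≤ 1) ∧
    ∀ i ∈ dec 8 120, ∑ j, norB i j * (![-1, 1, 0, 1] : Fin 4 → ℝ) j = 1 := by
  constructor
  · intro i
    fin_cases i <;> (simp [norB, Fin.sum_univ_four] <;> norm_num)
  · intro i hi
    rw [mem_dec] at hi
    fin_cases i <;> first | exact absurd hi (by decide) | (simp [norB, Fin.sum_univ_four] <;> norm_num)

theorem vertB_18 : (∀ i, ∑ j, norB i j * (![-7/6, 2/3, 1/3, 5/3] : Fin 4 → ℝ) j ≤ 1) ∧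
    ∀ i ∈ dec 8 216, ∑ j, norB i j * (![-7/6, 2/3, 1/3, 5/3] : Fin 4 → ℝ) j = 1 := by
  constructor
  · intro i
    fin_cases i <;> (simp [norB, Fin.sum_univ_four] <;> norm_num)
  · intro i hi
    rw [mem_dec] at hi
    fin_cases i <;> first | exact absurd hi (by decide) | (simp [norB, Fin.sum_univ_four] <;> norm_num)

theorem vertB_19 : (∀ i, ∑ j, norB i j * (![-3/2, 2, 1, 3] : Fin 4 → ℝ) j ≤ 1) ∧
    ∀ i ∈ dec 8 240, ∑ j, norB i j * (![-3/2, 2, 1, 3] : Fin 4 → ℝ) j = 1 := by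
  constructor
  · intro i
    fin_cases i <;> (simp [norB, Fin.sum_univ_four] <;> norm_num)
  · intro i hi
    rw [mem_dec] at hi
    fin_cases i <;> first | exact absurd hi (by decide) | (simp [norB, Fin.sum_univ_four] <;> norm_num)

theorem facB_0 : ∑ j, norB 0 j * (![1/4, 3/2, 5/4, 1] : Fin 4 → ℝ) j = 1 ∧
    ∀ l, l ≠ 0 → ∑ j, norB l j * (![1/4, 3/2, 5/4, 1] : Fin 4 → ℝ) j < 1 := by
  constructor
  · simp [norB, Fin.sum_univ_four] <;> norm_num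
  · intro l hl
    fin_cases l <;> first | exact absurd rfl hl | (simp [norB, Fin.sum_univ_four] <;> norm_num)

theorem facB_1 : ∑ j, norB 1 j * (![1/4, 1/7, -1/14, -4/7] : Fin 4 → ℝ) j = 1 ∧
    ∀ l, l ≠ 1 → ∑ j, norB l j * (![1/4, 1/7, -1/14, -4/7] : Fin 4 → ℝ) j < 1 := by
  constructor
  · simp [norB, Fin.sum_univ_four] <;> norm_num
  · intro l hl
    fin_cases l <;> first | exact absurd rfl hl | (simp [norB, Fin.sum_univ_four] <;> norm_num)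

theorem facB_2 : ∑ j, norB 2 j * (![1/2, 3/2, 1, 1/2] : Fin 4 → ℝ) j = 1 ∧
    ∀ l, l ≠ 2 → ∑ j, norB l j * (![1/2, 3/2, 1, 1/2] : Fin 4 → ℝ) j < 1 := by
  constructor
  · simp [norB, Fin.sum_univ_four] <;> norm_num
  · intro l hl
    fin_cases l <;> first | exact absurd rfl hl | (simp [norB, Fin.sum_univ_four] <;> norm_num)

theorem facB_3 : ∑ j, norB 3 j * (![0, -1/4, -3/8, 1/8] : Fin 4 → ℝ) j = 1 ∧
    ∀ l, l ≠ 3 → ∑ j, norB l j * (![0, -1/4, -3/8, 1/8] : Fin 4 → ℝ) j < 1 := by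
  constructor
  · simp [norB, Fin.sum_univ_four] <;> norm_num
  · intro l hl
    fin_cases l <;> first | exact absurd rfl hl | (simp [norB, Fin.sum_univ_four] <;> norm_num)

theorem facB_4 : ∑ j, norB 4 j * (![0, 1/2, 0, 1] : Fin 4 → ℝ) j = 1 ∧
    ∀ l, l ≠ 4 → ∑ j, norB l j * (![0, 1/2, 0, 1] : Fin 4 → ℝ) j < 1 := by
  constructor
  · simp [norB, Fin.sum_univ_four] <;> norm_num
  · intro l hl
    fin_cases l <;> first | exact absurd rfl hl | (simp [norB, Fin.sum_univ_four] <;> norm_num)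

theorem facB_5 : ∑ j, norB 5 j * (![1/4, 2, 1, 1/2] : Fin 4 → ℝ) j = 1 ∧
    ∀ l, l ≠ 5 → ∑ j, norB l j * (![1/4, 2, 1, 1/2] : Fin 4 → ℝ) j < 1 := by
  constructor
  · simp [norB, Fin.sum_univ_four] <;> norm_num
  · intro l hl
    fin_cases l <;> first | exact absurd rfl hl | (simp [norB, Fin.sum_univ_four] <;> norm_num)

theorem facB_6 : ∑ j, norB 6 j * (![-1/2, 3/2, 1, 1] : Fin 4 → ℝ) j = 1 ∧
    ∀ l, l ≠ 6 → ∑ j, norB l j * (![-1/2, 3/2, 1, 1] : Fin 4 → ℝ) j < 1 := by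
  constructor
  · simp [norB, Fin.sum_univ_four] <;> norm_num
  · intro l hl
    fin_cases l <;> first | exact absurd rfl hl | (simp [norB, Fin.sum_univ_four] <;> norm_num)

theorem facB_7 : ∑ j, norB 7 j * (![-3/4, 6/7, 4/7, 11/7] : Fin 4 → ℝ) j = 1 ∧
    ∀ l, l ≠ 7 → ∑ j, norB l j * (![-3/4, 6/7, 4/7, 11/7] : Fin 4 → ℝ) j < 1 := by
  constructor
  · simp [norB, Fin.sum_univ_four] <;> norm_num
  · intro l hl
    fin_cases l <;> first | exact absurd rfl hl | (simp [norB, Fin.sum_univ_four] <;> norm_num)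

/-- The minimal non-faces. -/
def mnfB : List ℕ := [19, 35, 67, 41, 73, 81, 82, 146, 162, 44, 76, 140, 84, 148, 164, 168]

theorem nonfaceB {x : Fin 4 → ℝ} (hx : ∀ i, ∑ j, norB i j * x j ≤ 1) {T : ℕ} (hT : T ∈ mnfB)
    (h : ∀ i ∈ dec 8 T, ∑ j, norB i j * x j = 1) : False := by
  simp only [mnfB, List.mem_cons, List.mem_nil_iff, or_false] at hT
  rcases hT with rfl | rfl | rfl | rfl | rfl | rfl | rfl | rfl | rfl | rfl | rfl | rfl | rfl | rfl | rfl | rfl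
  · exact nfB_014 hx (h 0 (by decide)) (h 1 (by decide)) (h 4 (by decide))
  · exact nfB_015 hx (h 0 (by decide)) (h 1 (by decide)) (h 5 (by decide))
  · exact nfB_016 hx (h 0 (by decide)) (h 1 (by decide)) (h 6 (by decide))
  · exact nfB_035 hx (h 0 (by decide)) (h 3 (by decide)) (h 5 (by decide))
  · exact nfB_036 hx (h 0 (by decide)) (h 3 (by decide)) (h 6 (by decide))
  · exact nfB_046 hx (h 0 (by decide)) (h 4 (by decide)) (h 6 (by decide))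
  · exact nfB_146 hx (h 1 (by decide)) (h 4 (by decide)) (h 6 (by decide))
  · exact nfB_147 hx (h 1 (by decide)) (h 4 (by decide)) (h 7 (by decide))
  · exact nfB_157 hx (h 1 (by decide)) (h 5 (by decide)) (h 7 (by decide))
  · exact nfB_235 hx (h 2 (by decide)) (h 3 (by decide)) (h 5 (by decide))
  · exact nfB_236 hx (h 2 (by decide)) (h 3 (by decide)) (h 6 (by decide))
  · exact nfB_237 hx (h 2 (by decide)) (h 3 (by decide)) (h 7 (by decide))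
  · exact nfB_246 hx (h 2 (by decide)) (h 4 (by decide)) (h 6 (by decide))
  · exact nfB_247 hx (h 2 (by decide)) (h 4 (by decide)) (h 7 (by decide))
  · exact nfB_257 hx (h 2 (by decide)) (h 5 (by decide)) (h 7 (by decide))
  · exact nfB_357 hx (h 3 (by decide)) (h 5 (by decide)) (h 7 (by decide))

theorem chkmnfB : ∀ n < 256, (∃ f ∈ kBFacets, n &&& f = n) ∨ ∃ T ∈ mnfB, T &&& n = T := by
  decide +kernel

theorem subB {x : Fin 4 → ℝ} (hx : ∀ i, ∑ j, norB i j * x j ≤ 1) {σ : Finset (Fin 8)}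
    (h : ∀ i ∈ σ, ∑ j, norB i j * x j = 1) : σ ∈ cx 8 kBFacets := by
  obtain ⟨n, hn, rfl⟩ := dec_surj σ
  rcases chkmnfB n (by simpa using hn) with ⟨f, hf, hnf⟩ | ⟨T, hT, hTn⟩
  · exact ⟨f, hf, (dec_sub hn).mpr hnf⟩
  · exfalso
    refine nonfaceB hx hT fun i hi => h i ?_
    refine (dec_sub (m := 8) (n := T) (c := n) ?_).mpr hTn hi
    have : ∀ T ∈ mnfB, T < 2 ^ 8 := by decide
    exact this T hT

theorem card_facetsB : ∀ f ∈ kBFacets, (dec 8 f).card = 4 := by decide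

/-- The polytope. -/
noncomputable def polyB : SimplePolytope 4 8 where
  a := norB
  b := fun _ => 1
  bounded := by
    refine (Metric.isBounded_Icc (fun _ => (-4 : ℝ)) (fun _ => (4 : ℝ))).subset ?_
    intro x hx
    obtain ⟨h0, h1, h2, h3, h4, h5, h6, h7⟩ := ineqB (x := x) hx
    constructor
    · intro i
      fin_cases i <;> simp only [Fin.zero_eta, Fin.mk_one, Fin.reduceFinMk] <;> linarith
    · intro i
      fin_cases i <;> simp only [Fin.zero_eta, Fin.mk_one, Fin.reduceFinMk] <;> linarith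
  interior := by
    refine ⟨fun _ => 0, fun i => ?_⟩
    simp
  facet := by
    intro i
    fin_cases i
    · exact ⟨_, facB_0⟩
    · exact ⟨_, facB_1⟩
    · exact ⟨_, facB_2⟩
    · exact ⟨_, facB_3⟩
    · exact ⟨_, facB_4⟩
    · exact ⟨_, facB_5⟩
    · exact ⟨_, facB_6⟩
    · exact ⟨_, facB_7⟩
  simple := by
    intro x hx σ hσ
    obtain ⟨f, hf, hsub⟩ := subB hx hσ
    exact (Finset.card_le_card hsub).trans (card_facetsB f hf).le

theorem polyB_complex : polyB.complex = cx 8 kBFacets := by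
  apply Set.Subset.antisymm
  · rintro σ ⟨x, hx, hσ⟩
    exact subB hx hσ
  · rintro σ ⟨f, hf, hσ⟩
    simp only [kBFacets, List.mem_cons, List.mem_nil_iff, or_false] at hf
    rcases hf with rfl | rfl | rfl | rfl | rfl | rfl | rfl | rfl | rfl | rfl | rfl | rfl | rfl | rfl | rfl | rfl | rfl | rfl | rfl | rfl
    · exact ⟨_, vertB_0.1, fun i hi => vertB_0.2 i (hσ hi)⟩
    · exact ⟨_, vertB_1.1, fun i hi => vertB_1.2 i (hσ hi)⟩
    · exact ⟨_, vertB_2.1, fun i hi => vertB_2.2 i (hσ hi)⟩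
    · exact ⟨_, vertB_3.1, fun i hi => vertB_3.2 i (hσ hi)⟩
    · exact ⟨_, vertB_4.1, fun i hi => vertB_4.2 i (hσ hi)⟩
    · exact ⟨_, vertB_5.1, fun i hi => vertB_5.2 i (hσ hi)⟩
    · exact ⟨_, vertB_6.1, fun i hi => vertB_6.2 i (hσ hi)⟩
    · exact ⟨_, vertB_7.1, fun i hi => vertB_7.2 i (hσ hi)⟩
    · exact ⟨_, vertB_8.1, fun i hi => vertB_8.2 i (hσ hi)⟩
    · exact ⟨_, vertB_9.1, fun i hi => vertB_9.2 i (hσ hi)⟩
    · exact ⟨_, vertB_10.1, fun i hi => vertB_10.2 i (hσ hi)⟩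
    · exact ⟨_, vertB_11.1, fun i hi => vertB_11.2 i (hσ hi)⟩
    · exact ⟨_, vertB_12.1, fun i hi => vertB_12.2 i (hσ hi)⟩
    · exact ⟨_, vertB_13.1, fun i hi => vertB_13.2 i (hσ hi)⟩
    · exact ⟨_, vertB_14.1, fun i hi => vertB_14.2 i (hσ hi)⟩
    · exact ⟨_, vertB_15.1, fun i hi => vertB_15.2 i (hσ hi)⟩
    · exact ⟨_, vertB_16.1, fun i hi => vertB_16.2 i (hσ hi)⟩
    · exact ⟨_, vertB_17.1, fun i hi => vertB_17.2 i (hσ hi)⟩
    · exact ⟨_, vertB_18.1, fun i hi => vertB_18.2 i (hσ hi)⟩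
    · exact ⟨_, vertB_19.1, fun i hi => vertB_19.2 i (hσ hi)⟩

end Pool.Agent.Lib_helper98.Buch
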