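import Mathlib

/-!
# Stanley-Reisner rings, the Koszul complex and bigraded Betti numbers
-/

set_option autoImplicit false

namespace Pool.Agent.Lib_helper98.Buch

open MvPolynomial

universe u

variable (k : Type u) [Field k] {m : ℕ} (K : Set (Finset (Fin m)))

/-- The Stanley-Reisner ideal `I_K` of a family `K` of subsets of `{0, …, m-1}`: it is generated
by the squarefree monomials `∏ i ∈ σ, v_i` with `σ ∉ K`. -/
noncomputable def srIdeal : Ideal (MvPolynomial (Fin m) k) :=
  Ideal.span {f | ∃ σ : Finset (Fin m), σ ∉ K ∧ f = ∏ i ∈ σ, X i}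

/-- The Stanley-Reisner ring `k[K] = k[v_0, …, v_{m-1}] / I_K`. -/
def FaceRing : Type u := MvPolynomial (Fin m) k ⧸ srIdeal k K

noncomputable instance : CommRing (FaceRing k K) := Ideal.Quotient.commRing (srIdeal k K)

noncomputable instance : Algebra k (FaceRing k K) :=
  Ideal.Quotient.algebra k (I := srIdeal k K)

/-- The quotient map `k[v_0, …, v_{m-1}] → k[K]`. -/
noncomputable def toFace : MvPolynomial (Fin m) k →ₐ[k] FaceRing k K :=
  Ideal.Quotient.mkₐ k (srIdeal k K)

/-- The homogeneous component of `k[K]` of polynomial degree `d` (that is, of degree `2d` when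
the variables have degree two). -/
noncomputable def facePart (d : ℕ) : Submodule k (FaceRing k K) :=
  (homogeneousSubmodule (Fin m) k d).map (toFace k K).toLinearMap

/-- The Koszul complex `k[K] ⊗ Λ[u_0, …, u_{m-1}]`: an element is given by its coefficients
`f τ ∈ k[K]` at the basis elements `u_τ = u_{t_1} ∧ … ∧ u_{t_i}`, `τ = {t_1 < … < t_i}`. -/
def Koszul : Type u := Finset (Fin m) → FaceRing k K

noncomputable instance : AddCommGroup (Koszul k K) :=
  Pi.addCommGroup (f := fun _ : Finset (Fin m) => FaceRing k K)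

noncomputable instance : Module k (Koszul k K) :=
  Pi.module (Finset (Fin m)) (fun _ : Finset (Fin m) => FaceRing k K) k

/-- The Koszul differential as a function: `d u_τ = ∑_{t ∈ τ} (-1)^{#{s ∈ τ | s < t}} v_t u_{τ ∖ t}`
and `d` is `k[K]`-linear. -/
noncomputable def koszulFun (f : Koszul k K) : Koszul k K := fun τ =>
  ∑ t ∈ τᶜ, (-1 : FaceRing k K) ^ (τ.filter (· < t)).card * (toFace k K (X t) * f (insert t τ))

theorem koszulFun_add (f g : Koszul k K) :
    koszulFun k K (f + g) = koszulFun k K f + koszulFun k K g := by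
  funext τ
  change (∑ t ∈ τᶜ, (-1 : FaceRing k K) ^ (τ.filter (· < t)).card *
    (toFace k K (X t) * (f (insert t τ) + g (insert t τ)))) = koszulFun k K f τ + koszulFun k K g τ
  simp only [mul_add, Finset.sum_add_distrib]
  rfl

theorem koszulFun_smul (c : k) (f : Koszul k K) :
    koszulFun k K (c • f) = c • koszulFun k K f := by
  funext τ
  change (∑ t ∈ τᶜ, (-1 : FaceRing k K) ^ (τ.filter (· < t)).card *
    (toFace k K (X t) * (c • f (insert t τ)))) = c • koszulFun k K f τ
  simp only [mul_smul_comm, ← Finset.smul_sum]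
  rfl

/-- The Koszul differential. -/
noncomputable def koszulD : Koszul k K →ₗ[k] Koszul k K where
  toFun := koszulFun k K
  map_add' := koszulFun_add k K
  map_smul' := koszulFun_smul k K

/-- `f` is a combination of elements `a • u_τ` with `τ` of cardinality `i` and `a ∈ k[K]` of
polynomial degree `j - i`. -/
def IsPart (i j : ℕ) (f : Koszul k K) : Prop :=
  ∀ τ, f τ ∈ facePart k K (j - i) ∧ (f τ ≠ 0 → τ.card = i ∧ i ≤ j)

theorem isPart_zero (i j : ℕ) : IsPart k K i j 0 :=
  fun _ => ⟨Submodule.zero_mem _, fun h => absurd rfl h⟩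

theorem isPart_add (i j : ℕ) {f g : Koszul k K}
    (hf : IsPart k K i j f) (hg : IsPart k K i j g) : IsPart k K i j (f + g) := by
  intro τ
  refine ⟨Submodule.add_mem _ (hf τ).1 (hg τ).1, fun h => ?_⟩
  by_cases h0 : f τ = 0
  · refine (hg τ).2 fun h1 => h ?_
    change f τ + g τ = 0
    rw [h0, h1, add_zero]
  · exact (hf τ).2 h0

theorem isPart_smul (i j : ℕ) (c : k) {f : Koszul k K}
    (hf : IsPart k K i j f) : IsPart k K i j (c • f) := by
  intro τ
  refine ⟨Submodule.smul_mem _ _ (hf τ).1, fun h => ?_⟩
  refine (hf τ).2 fun h1 => h ?_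
  change c • f τ = 0
  rw [h1, smul_zero]

/-- The part of the Koszul complex of bidegree `(-i, 2j)`: spanned by the elements `a • u_τ` with
`τ` of cardinality `i` and `a ∈ k[K]` of polynomial degree `j - i`. -/
noncomputable def koszulPart (i j : ℕ) : Submodule k (Koszul k K) where
  carrier := {f | IsPart k K i j f}
  zero_mem' := isPart_zero k K i j
  add_mem' := isPart_add k K i j
  smul_mem' := isPart_smul k K i j

/-- The cycles of bidegree `(-i, 2j)`. -/
noncomputable def cyclePart (i j : ℕ) : Submodule k (Koszul k K) :=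
  koszulPart k K i j ⊓ LinearMap.ker (koszulD k K)

/-- The boundaries of bidegree `(-i, 2j)`: the image of the part of bidegree `(-(i+1), 2j)`. -/
noncomputable def boundaryPart (i j : ℕ) : Submodule k (Koszul k K) :=
  (koszulPart k K (i + 1) j).map (koszulD k K)

/-- The bigraded Betti number `β^{-i,2j}(K) = dim_k Tor^{-i,2j}_{k[v_0,…,v_{m-1}]}(k[K], k)`, with
`Tor` computed by the Koszul complex: cycles of bidegree `(-i, 2j)` modulo boundaries. -/
noncomputable def betti (i j : ℕ) : ℕ :=
  Module.finrank k (↥(cyclePart k K i j) ⧸ (boundaryPart k K i j).submoduleOf (cyclePart k K i j))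

end Pool.Agent.Lib_helper98.Buch
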