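import Mathlib
import Pool.Agent.Lib_helper98.Buch.Tor
import Pool.Agent.Lib_helper98.Betti.Defs

set_option autoImplicit false

namespace Pool.Agent.Lib_helper98.Buch

universe u

theorem betti_eq (k : Type u) [Field k] {m : ℕ} (K : Set (Finset (Fin m))) (i j : ℕ) :
    betti k K i j = Pool.Agent.Lib_helper98.Betti.betti k K i j := rfl

end Pool.Agent.Lib_helper98.Buch
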