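import Mathlib
import Pool.Agent.Lib_helper98.Buch.Defs
import Pool.Agent.Lib_helper98.Buch.Tor
import Pool.Agent.Lib_helper98.Buch.TorEq
import Pool.Agent.Lib_helper98.Buch.PolyA
import Pool.Agent.Lib_helper98.Buch.PolyB
import Pool.Agent.Lib_helper98.Buch.Free
import Pool.Agent.Lib_helper98.Betti.Final

set_option autoImplicit false

namespace Pool.Agent.Lib_helper98.Buch

universe u

theorem pair :
    ∃ P Q : SimplePolytope 4 8,
      (∀ (k : Type u) [Field k] (i j : ℕ), betti k P.complex i j = betti k Q.complex i j) ∧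
      buchstaber Q.complex < buchstaber P.complex ∧
      realBuchstaber Q.complex < realBuchstaber P.complex := by
  refine ⟨polyA, polyB, ?_, ?_, ?_⟩
  · intro k _ i j
    rw [polyA_complex, polyB_complex, betti_eq, betti_eq]
    exact Betti.betti_KA_eq_KB k i j
  · rw [polyA_complex, polyB_complex]
    exact lt_of_le_of_lt KB_buchstaber (lt_of_lt_of_le (by norm_num) KA_buchstaber)
  · rw [polyA_complex, polyB_complex]
    exact lt_of_le_of_lt KB_realBuchstaber (lt_of_lt_of_le (by norm_num) KA_realBuchstaber)

end Pool.Agent.Lib_helper98.Buch
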